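import Pool.Agent.Lib.MP_c5b475_co.AA.PF

set_option autoImplicit false

/-!
# CNT (35 min): expected number of small dense sets

`pw W` = the pairs inside `W`, `|pw W| ≤ |W| ^ 2`.  Use `pf` with `m = w + k`.  For every `W` with
`|W| = w` the number of `F ⊆ pw W` with `|F| = w + k` is at most `2 ^ (w ^ 2)`
(`Finset.card_powersetCard`, `Nat.choose_le_two_pow`, monotone in the top), the number of `W` is
`C(2N, w) ≤ (2N)^w`.  So `(∑_W ∑_F #F) N^(w+k) ≤ (2N)^w 2^(w^2) (2n)^(w+k) #BReg`; cancel `N^w`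
(take `N0 ≥ 1`).
-/

namespace Pool.Agent.Lib.MP_c5b475_co.AA

open Finset

/-- the pairs inside `W` -/
def pw {N : ℕ} (W : Finset (Fin N ⊕ Fin N)) : Finset (Fin N × Fin N) :=
  univ.filter fun p => Sum.inl p.1 ∈ W ∧ Sum.inr p.2 ∈ W

theorem eW_eq {N : ℕ} (E : Finset (Fin N × Fin N)) (W : Finset (Fin N ⊕ Fin N)) :
    eW E W = (E ∩ pw W).card := by
  unfold eW pw
  congr 1
  ext p
  simp

private theorem cnt_pw {N : ℕ} (W : Finset (Fin N ⊕ Fin N)) : (pw W).card ≤ W.card ^ 2 := by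
  rw [sq, ← card_product]
  apply card_le_card_of_injOn (fun p => (Sum.inl p.1, Sum.inr p.2))
  · intro p hp
    simp only [pw, mem_coe, mem_filter, mem_univ, true_and] at hp
    simp only [mem_coe, mem_product]
    exact hp
  · intro p _ r _ h
    simp only [Prod.mk.injEq, Sum.inl.injEq, Sum.inr.injEq] at h
    exact Prod.ext h.1 h.2

theorem cnt (n w k : ℕ) (hn : 1 ≤ n) : ∃ N0, ∀ N, N0 ≤ N →
    (∑ W ∈ powersetCard w (univ : Finset (Fin N ⊕ Fin N)), ∑ F ∈ powersetCard (w + k) (pw W),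
      ((BReg N n).filter fun E => F ⊆ E).card) * N ^ k ≤
      2 ^ w * 2 ^ (w ^ 2) * (2 * n) ^ (w + k) * (BReg N n).card := by
  obtain ⟨N1, h1⟩ := pf n (w + k) hn
  refine ⟨max N1 1, fun N hN => ?_⟩
  have hN1 : N1 ≤ N := (le_max_left _ _).trans hN
  have hN2 : 1 ≤ N := (le_max_right _ _).trans hN
  have h2 : ∀ W ∈ powersetCard w (univ : Finset (Fin N ⊕ Fin N)),
      (∑ F ∈ powersetCard (w + k) (pw W), ((BReg N n).filter fun E => F ⊆ E).card) * N ^ (w + k) ≤
        2 ^ (w ^ 2) * ((2 * n) ^ (w + k) * (BReg N n).card) := by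
    intro W hW
    rw [mem_powersetCard] at hW
    rw [sum_mul]
    have h3 : ∀ F ∈ powersetCard (w + k) (pw W),
        ((BReg N n).filter fun E => F ⊆ E).card * N ^ (w + k) ≤
          (2 * n) ^ (w + k) * (BReg N n).card := by
      intro F hF
      rw [mem_powersetCard] at hF
      have := h1 N hN1 F hF.2.le
      rw [hF.2] at this
      exact this
    refine (sum_le_card_nsmul _ _ _ h3).trans ?_
    rw [smul_eq_mul]
    apply Nat.mul_le_mul_right
    rw [card_powersetCard]
    refine (Nat.choose_le_two_pow _ _).trans ?_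
    apply Nat.pow_le_pow_right (by norm_num)
    rw [← hW.2]
    exact cnt_pw W
  have h4 : (∑ W ∈ powersetCard w (univ : Finset (Fin N ⊕ Fin N)),
      ∑ F ∈ powersetCard (w + k) (pw W), ((BReg N n).filter fun E => F ⊆ E).card) * N ^ (w + k) ≤
        (2 * N) ^ w * (2 ^ (w ^ 2) * ((2 * n) ^ (w + k) * (BReg N n).card)) := by
    rw [sum_mul]
    refine (sum_le_card_nsmul _ _ _ h2).trans ?_
    rw [smul_eq_mul]
    apply Nat.mul_le_mul_right
    rw [card_powersetCard]
    refine (Nat.choose_le_pow _ _).trans ?_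
    apply le_of_eq
    congr 1
    rw [card_univ, Fintype.card_sum, Fintype.card_fin]
    ring
  have h5 : 0 < N ^ w := by positivity
  apply Nat.le_of_mul_le_mul_left _ h5
  calc _ = (∑ W ∈ powersetCard w (univ : Finset (Fin N ⊕ Fin N)),
      ∑ F ∈ powersetCard (w + k) (pw W), ((BReg N n).filter fun E => F ⊆ E).card) * N ^ (w + k) := by
        rw [pow_add]; ring
    _ ≤ _ := h4
    _ = _ := by rw [mul_pow]; ring

end Pool.Agent.Lib.MP_c5b475_co.AA
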