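import Pool.Agent.Lib.MP_c5b475_co.AA.Defs

set_option autoImplicit false

/-!
# D1a (40 min): minimal short dense sets are disjoint

`eW_super`: supermodularity (filters: an edge inside `W₁` and inside `W₂` is inside both the union and
the intersection).  `mc_disjoint`: if `W₁ ≠ W₂` are minimal and meet, then `W₁ ∩ W₂` is nonempty and
different from `W₁` or from `W₂`, so (minimality) it is not in `cyc E n`, i.e.
`eW E (W₁ ∩ W₂) + 1 ≤ |W₁ ∩ W₂|`; hence `eW E (W₁ ∪ W₂) ≥ |W₁| + |W₂| - |W₁ ∩ W₂| + 1`, contradiction to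
`LS` (at most `2 n` vertices).
`exists_mc`: a minimal element below `W` (`Finset.exists_minimal`, or strong induction on the
cardinality).
-/

namespace Pool.Agent.Lib.MP_c5b475_co.AA

open Finset

variable {N : ℕ} {E : Finset (Fin N × Fin N)} {n L : ℕ}

theorem eW_super (E : Finset (Fin N × Fin N)) (W₁ W₂ : Finset (Fin N ⊕ Fin N)) :
    eW E W₁ + eW E W₂ ≤ eW E (W₁ ∪ W₂) + eW E (W₁ ∩ W₂) := by
  unfold eW
  rw [← card_union_add_card_inter]
  refine Nat.add_le_add (card_le_card ?_) (card_le_card ?_)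
  · intro p hp
    simp only [mem_union, mem_filter] at hp ⊢
    rcases hp with ⟨h1, h2, h3⟩ | ⟨h1, h2, h3⟩
    · exact ⟨h1, Or.inl h2, Or.inl h3⟩
    · exact ⟨h1, Or.inr h2, Or.inr h3⟩
  · intro p hp
    simp only [mem_inter, mem_filter] at hp ⊢
    obtain ⟨⟨h1, h2, h3⟩, h4, h5, h6⟩ := hp
    exact ⟨h1, ⟨h2, h5⟩, h3, h6⟩

theorem exists_mc {W : Finset (Fin N ⊕ Fin N)} (hW : W ∈ cyc E n) : ∃ W' ∈ mc E n, W' ⊆ W := by
  classical
  induction' h : W.card using Nat.strong_induction_on with k ih generalizing W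
  by_cases hm : W ∈ mc E n
  · exact ⟨W, hm, Subset.refl W⟩
  · unfold mc at hm
    rw [mem_filter] at hm
    push Not at hm
    obtain ⟨W', hW', hsub, hne⟩ := hm hW
    have hlt : W'.card < W.card := card_lt_card ((ssubset_iff_subset_ne).2 ⟨hsub, hne⟩)
    obtain ⟨W'', h1, h2⟩ := ih W'.card (h ▸ hlt) hW' rfl
    exact ⟨W'', h1, h2.trans hsub⟩

theorem mc_disjoint (hLS : LS E L) (hL : 2 * n + 1 ≤ L) {W₁ W₂ : Finset (Fin N ⊕ Fin N)}
    (h1 : W₁ ∈ mc E n) (h2 : W₂ ∈ mc E n) (hne : W₁ ≠ W₂) : Disjoint W₁ W₂ := by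
  classical
  rw [Finset.disjoint_iff_inter_eq_empty]
  by_contra hcon
  have hI : (W₁ ∩ W₂).Nonempty := nonempty_iff_ne_empty.2 hcon
  unfold mc at h1 h2
  rw [mem_filter] at h1 h2
  obtain ⟨h1, hm1⟩ := h1
  obtain ⟨h2, hm2⟩ := h2
  have hnot : W₁ ∩ W₂ ∉ cyc E n := by
    intro hc
    have e1 := hm1 _ hc inter_subset_left
    have e2 := hm2 _ hc inter_subset_right
    exact hne (e1.symm.trans e2)
  unfold cyc at h1 h2 hnot
  simp only [mem_filter, mem_univ, true_and] at h1 h2 hnot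
  have hIc : (W₁ ∩ W₂).card ≤ n := (card_le_card inter_subset_left).trans h1.2.1
  have hlt : eW E (W₁ ∩ W₂) < (W₁ ∩ W₂).card := by
    by_contra hh
    exact hnot ⟨hI, hIc, not_lt.1 hh⟩
  have hs := eW_super E W₁ W₂
  have hu := card_union_add_card_inter W₁ W₂
  have hle : (W₁ ∪ W₂).card ≤ L := by
    have := h1.2.1
    have := h2.2.1
    omega
  have := hLS _ hle
  have := h1.2.2
  have := h2.2.2
  omega

end Pool.Agent.Lib.MP_c5b475_co.AA
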