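import Pool.Agent.Lib.MP_c5b475_co.AA.D1a

set_option autoImplicit false

/-!
# D1b (45 min): a vertex has neighbours in at most one short cycle

Let `W₁ ≠ W₂` be minimal, hence disjoint.  If an edge `(a, b)` has `inl a ∈ W₁`, `inr b ∈ W₂` (or
conversely) then `eW E (W₁ ∪ W₂) ≥ |W₁| + |W₂| + 1`: contradiction to `LS`.  `mc_same`: if `inl a ∈ W₁` the
edge `(a, b')` joins `W₁` and `W₂`; if `inl a ∈ W₂` the edge `(a, b)` does; otherwise
`W := insert (inl a) (W₁ ∪ W₂)` has `|W₁| + |W₂| + 1 ≤ 2 n + 1` vertices and at least `|W₁| + |W₂| + 2` edges.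
`mc_same'` is the same with the classes exchanged.
-/

namespace Pool.Agent.Lib.MP_c5b475_co.AA

open Finset

variable {N : ℕ} {E : Finset (Fin N × Fin N)} {n L : ℕ}

/-- Two disjoint minimal sets, a set `X` of at most one further vertex and more than `|X|` further edges are
impossible in a locally sparse graph. -/
theorem D1b_key (hLS : LS E L) (hL : 2 * n + 1 ≤ L) {W₁ W₂ : Finset (Fin N ⊕ Fin N)}
    (h1 : W₁ ∈ mc E n) (h2 : W₂ ∈ mc E n) (hd : Disjoint W₁ W₂) (X : Finset (Fin N ⊕ Fin N))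
    (T : Finset (Fin N × Fin N)) (hT : T ⊆ E)
    (hT1 : ∀ p ∈ T, Sum.inl p.1 ∈ W₁ ∪ W₂ ∪ X ∧ Sum.inr p.2 ∈ W₁ ∪ W₂ ∪ X)
    (hT2 : ∀ p ∈ T, ¬ (Sum.inl p.1 ∈ W₁ ∧ Sum.inr p.2 ∈ W₁))
    (hT3 : ∀ p ∈ T, ¬ (Sum.inl p.1 ∈ W₂ ∧ Sum.inr p.2 ∈ W₂))
    (hX : X.card ≤ 1) (hXT : X.card < T.card) : False := by
  have g1 := (mem_filter.1 (mem_filter.1 h1).1).2
  have g2 := (mem_filter.1 (mem_filter.1 h2).1).2
  have hc : (W₁ ∪ W₂ ∪ X).card ≤ W₁.card + W₂.card + X.card :=
    (card_union_le _ _).trans (Nat.add_le_add_right (card_union_le _ _) _)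
  have hW := hLS (W₁ ∪ W₂ ∪ X) (by omega)
  set F₁ := E.filter fun p => Sum.inl p.1 ∈ W₁ ∧ Sum.inr p.2 ∈ W₁ with hF1
  set F₂ := E.filter fun p => Sum.inl p.1 ∈ W₂ ∧ Sum.inr p.2 ∈ W₂ with hF2
  have e1 : eW E W₁ = F₁.card := rfl
  have e2 : eW E W₂ = F₂.card := rfl
  have hd12 : Disjoint F₁ F₂ := by
    rw [Finset.disjoint_left]
    intro p hp hp'
    rw [hF1, mem_filter] at hp
    rw [hF2, mem_filter] at hp'
    exact (Finset.disjoint_left.1 hd) hp.2.1 hp'.2.1
  have hdT : Disjoint (F₁ ∪ F₂) T := by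
    rw [Finset.disjoint_left]
    intro p hp hp'
    rcases mem_union.1 hp with hp | hp
    · exact hT2 p hp' (mem_filter.1 hp).2
    · exact hT3 p hp' (mem_filter.1 hp).2
  have hsub : (F₁ ∪ F₂) ∪ T ⊆ E.filter fun p => Sum.inl p.1 ∈ W₁ ∪ W₂ ∪ X ∧ Sum.inr p.2 ∈ W₁ ∪ W₂ ∪ X := by
    intro p hp
    rw [mem_filter]
    rcases mem_union.1 hp with hp | hp
    · rcases mem_union.1 hp with hp | hp
      · have := mem_filter.1 hp
        exact ⟨this.1, mem_union_left _ (mem_union_left _ this.2.1),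
          mem_union_left _ (mem_union_left _ this.2.2)⟩
      · have := mem_filter.1 hp
        exact ⟨this.1, mem_union_left _ (mem_union_right _ this.2.1),
          mem_union_left _ (mem_union_right _ this.2.2)⟩
    · exact ⟨hT hp, hT1 p hp⟩
  have h5 := card_le_card hsub
  rw [card_union_of_disjoint hdT, card_union_of_disjoint hd12] at h5
  have e3 : eW E (W₁ ∪ W₂ ∪ X) =
    (E.filter fun p => Sum.inl p.1 ∈ W₁ ∪ W₂ ∪ X ∧ Sum.inr p.2 ∈ W₁ ∪ W₂ ∪ X).card := rfl
  omega

theorem mc_same (hLS : LS E L) (hL : 2 * n + 1 ≤ L) {W₁ W₂ : Finset (Fin N ⊕ Fin N)}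
    (h1 : W₁ ∈ mc E n) (h2 : W₂ ∈ mc E n) {a b b' : Fin N} (hab : (a, b) ∈ E) (hab' : (a, b') ∈ E)
    (hb : Sum.inr b ∈ W₁) (hb' : Sum.inr b' ∈ W₂) : W₁ = W₂ := by
  by_contra hne
  have hd := mc_disjoint hLS hL h1 h2 hne
  have hdl := Finset.disjoint_left.1 hd
  have hdr := Finset.disjoint_right.1 hd
  by_cases ha : Sum.inl a ∈ W₁
  · refine D1b_key hLS hL h1 h2 hd ∅ {(a, b')} (by simpa using hab') ?_ ?_ ?_ (by simp) (by simp)
    · intro p hp
      rw [mem_singleton] at hp
      subst hp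
      exact ⟨by simp [ha], by simp [hb']⟩
    · intro p hp
      rw [mem_singleton] at hp
      subst hp
      exact fun h => hdl h.2 hb'
    · intro p hp
      rw [mem_singleton] at hp
      subst hp
      exact fun h => hdl ha h.1
  by_cases ha' : Sum.inl a ∈ W₂
  · refine D1b_key hLS hL h1 h2 hd ∅ {(a, b)} (by simpa using hab) ?_ ?_ ?_ (by simp) (by simp)
    · intro p hp
      rw [mem_singleton] at hp
      subst hp
      exact ⟨by simp [ha'], by simp [hb]⟩
    · intro p hp
      rw [mem_singleton] at hp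
      subst hp
      exact fun h => ha h.1
    · intro p hp
      rw [mem_singleton] at hp
      subst hp
      exact fun h => hdl hb h.2
  have hbb : b ≠ b' := fun h => hdl hb (h ▸ hb')
  have hT : ({(a, b), (a, b')} : Finset (Fin N × Fin N)).card = 2 := by
    rw [card_pair]
    intro h
    exact hbb (Prod.mk.inj h).2
  refine D1b_key hLS hL h1 h2 hd {Sum.inl a} {(a, b), (a, b')} ?_ ?_ ?_ ?_ (by simp) (by simp [hT])
  · intro p hp
    rw [mem_insert, mem_singleton] at hp
    rcases hp with rfl | rfl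
    · exact hab
    · exact hab'
  · intro p hp
    rw [mem_insert, mem_singleton] at hp
    rcases hp with rfl | rfl
    · exact ⟨by simp, by simp [hb]⟩
    · exact ⟨by simp, by simp [hb']⟩
  · intro p hp
    rw [mem_insert, mem_singleton] at hp
    rcases hp with rfl | rfl
    · exact fun h => ha h.1
    · exact fun h => ha h.1
  · intro p hp
    rw [mem_insert, mem_singleton] at hp
    rcases hp with rfl | rfl
    · exact fun h => ha' h.1
    · exact fun h => ha' h.1

theorem mc_same' (hLS : LS E L) (hL : 2 * n + 1 ≤ L) {W₁ W₂ : Finset (Fin N ⊕ Fin N)}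
    (h1 : W₁ ∈ mc E n) (h2 : W₂ ∈ mc E n) {b a a' : Fin N} (hab : (a, b) ∈ E) (hab' : (a', b) ∈ E)
    (ha : Sum.inl a ∈ W₁) (ha' : Sum.inl a' ∈ W₂) : W₁ = W₂ := by
  by_contra hne
  have hd := mc_disjoint hLS hL h1 h2 hne
  have hdl := Finset.disjoint_left.1 hd
  by_cases hb : Sum.inr b ∈ W₁
  · refine D1b_key hLS hL h1 h2 hd ∅ {(a', b)} (by simpa using hab') ?_ ?_ ?_ (by simp) (by simp)
    · intro p hp
      rw [mem_singleton] at hp
      subst hp
      exact ⟨by simp [ha'], by simp [hb]⟩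
    · intro p hp
      rw [mem_singleton] at hp
      subst hp
      exact fun h => hdl h.1 ha'
    · intro p hp
      rw [mem_singleton] at hp
      subst hp
      exact fun h => hdl hb h.2
  by_cases hb' : Sum.inr b ∈ W₂
  · refine D1b_key hLS hL h1 h2 hd ∅ {(a, b)} (by simpa using hab) ?_ ?_ ?_ (by simp) (by simp)
    · intro p hp
      rw [mem_singleton] at hp
      subst hp
      exact ⟨by simp [ha], by simp [hb']⟩
    · intro p hp
      rw [mem_singleton] at hp
      subst hp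
      exact fun h => hb h.2
    · intro p hp
      rw [mem_singleton] at hp
      subst hp
      exact fun h => hdl ha h.1
  have haa : a ≠ a' := fun h => hdl ha (h ▸ ha')
  have hT : ({(a, b), (a', b)} : Finset (Fin N × Fin N)).card = 2 := by
    rw [card_pair]
    intro h
    exact haa (Prod.mk.inj h).1
  refine D1b_key hLS hL h1 h2 hd {Sum.inr b} {(a, b), (a', b)} ?_ ?_ ?_ ?_ (by simp) (by simp [hT])
  · intro p hp
    rw [mem_insert, mem_singleton] at hp
    rcases hp with rfl | rfl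
    · exact hab
    · exact hab'
  · intro p hp
    rw [mem_insert, mem_singleton] at hp
    rcases hp with rfl | rfl
    · exact ⟨by simp [ha], by simp⟩
    · exact ⟨by simp [ha'], by simp⟩
  · intro p hp
    rw [mem_insert, mem_singleton] at hp
    rcases hp with rfl | rfl
    · exact fun h => hb h.2
    · exact fun h => hb h.2
  · intro p hp
    rw [mem_insert, mem_singleton] at hp
    rcases hp with rfl | rfl
    · exact fun h => hb' h.2
    · exact fun h => hb' h.2

end Pool.Agent.Lib.MP_c5b475_co.AA
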