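import Pool.Agent.Lib.MP_c5b475_co.AA.Defs

set_option autoImplicit false

/-!
# D1c (35 min): a minimal set contains two disjoint edges

Every vertex `x` of a minimal `W` has at least two neighbours in `W`: otherwise
`eW E (W.erase x) ≥ eW E W - 1 ≥ |W.erase x|`, and `W.erase x` is nonempty (`W` has an edge, so two
vertices), so `W.erase x ∈ cyc E n`, contradiction.  Take an edge `a₁ b₁` inside `W` (`eW E W ≥ 1`), a
neighbour `b₂ ≠ b₁` of `a₁` in `W` and a neighbour `a₂ ≠ a₁` of `b₂` in `W`.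
-/

namespace Pool.Agent.Lib.MP_c5b475_co.AA

open Finset

variable {N : ℕ} {E : Finset (Fin N × Fin N)} {n : ℕ}

theorem d1c_edge {W : Finset (Fin N ⊕ Fin N)} (hW : W ∈ mc E n) : ∃ p : Fin N × Fin N,
    p ∈ E ∧ Sum.inl p.1 ∈ W ∧ Sum.inr p.2 ∈ W := by
  rw [mc, mem_filter, cyc, mem_filter] at hW
  obtain ⟨⟨_, hne, _, hle⟩, _⟩ := hW
  have h1 : 0 < eW E W := lt_of_lt_of_le (card_pos.mpr hne) hle
  rw [eW, card_pos] at h1
  obtain ⟨p, hp⟩ := h1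
  rw [mem_filter] at hp
  exact ⟨p, hp.1, hp.2⟩

theorem d1c_two {W : Finset (Fin N ⊕ Fin N)} (hW : W ∈ mc E n) {x : Fin N ⊕ Fin N}
    (hx : x ∈ W) : ∃ p q : Fin N × Fin N, p ≠ q ∧ (p ∈ E ∧ Sum.inl p.1 ∈ W ∧ Sum.inr p.2 ∈ W) ∧
      (q ∈ E ∧ Sum.inl q.1 ∈ W ∧ Sum.inr q.2 ∈ W) ∧ (x = Sum.inl p.1 ∨ x = Sum.inr p.2) ∧
      (x = Sum.inl q.1 ∨ x = Sum.inr q.2) := by
  obtain ⟨e, heE, he1, he2⟩ := d1c_edge hW
  have hW' := hW
  rw [mc, mem_filter, cyc, mem_filter] at hW'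
  obtain ⟨⟨_, hne, hcard, hle⟩, hmin⟩ := hW'
  set F := E.filter fun p => Sum.inl p.1 ∈ W ∧ Sum.inr p.2 ∈ W with hF
  set F' := E.filter fun p => Sum.inl p.1 ∈ W.erase x ∧ Sum.inr p.2 ∈ W.erase x with hF'
  have hsub : F' ⊆ F := by
    intro p hp
    rw [hF', mem_filter] at hp
    rw [hF, mem_filter]
    exact ⟨hp.1, mem_of_mem_erase hp.2.1, mem_of_mem_erase hp.2.2⟩
  have hcard2 : 1 < (F \ F').card := by
    by_contra hcon
    have h1 : (F \ F').card ≤ 1 := by omega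
    have h2 : (F \ F').card = F.card - F'.card := card_sdiff_of_subset hsub
    have h3 : F'.card ≤ F.card := card_le_card hsub
    have h4 : W.card ≤ F.card := hle
    have h5 : (W.erase x).card = W.card - 1 := card_erase_of_mem hx
    have h6 : (W.erase x).card ≤ eW E (W.erase x) := by
      show (W.erase x).card ≤ F'.card
      omega
    have h7 : (W.erase x).Nonempty := by
      by_cases h : x = Sum.inl e.1
      · refine ⟨Sum.inr e.2, mem_erase.mpr ⟨?_, he2⟩⟩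
        rw [h]
        exact fun hc => by cases hc
      · exact ⟨Sum.inl e.1, mem_erase.mpr ⟨fun hc => h hc.symm, he1⟩⟩
    have h8 : W.erase x ∈ cyc E n := by
      rw [cyc, mem_filter]
      exact ⟨mem_univ _, h7, le_trans (card_le_card (erase_subset _ _)) hcard, h6⟩
    have h9 := hmin _ h8 (erase_subset _ _)
    have h10 : x ∉ W.erase x := notMem_erase x W
    rw [h9] at h10
    exact h10 hx
  obtain ⟨p, hp, q, hq, hpq⟩ := one_lt_card.mp hcard2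
  have key : ∀ r : Fin N × Fin N, r ∈ F \ F' → (r ∈ E ∧ Sum.inl r.1 ∈ W ∧ Sum.inr r.2 ∈ W) ∧
      (x = Sum.inl r.1 ∨ x = Sum.inr r.2) := by
    intro r hr
    rw [mem_sdiff, hF, mem_filter, hF', mem_filter] at hr
    refine ⟨hr.1, ?_⟩
    by_contra hcon
    push Not at hcon
    exact hr.2 ⟨hr.1.1, mem_erase.mpr ⟨fun h => hcon.1 h.symm, hr.1.2.1⟩,
      mem_erase.mpr ⟨fun h => hcon.2 h.symm, hr.1.2.2⟩⟩
  exact ⟨p, q, hpq, (key p hp).1, (key q hq).1, (key p hp).2, (key q hq).2⟩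

theorem d1c_other_inl {W : Finset (Fin N ⊕ Fin N)} (hW : W ∈ mc E n) {a b : Fin N}
    (ha : (Sum.inl a : Fin N ⊕ Fin N) ∈ W) : ∃ b' : Fin N, b' ≠ b ∧ (a, b') ∈ E ∧
      (Sum.inr b' : Fin N ⊕ Fin N) ∈ W := by
  obtain ⟨p, q, hpq, hp, hq, hxp, hxq⟩ := d1c_two hW ha
  have hp1 : p.1 = a := by
    rcases hxp with h | h
    · exact (Sum.inl.inj h).symm
    · cases h
  have hq1 : q.1 = a := by
    rcases hxq with h | h
    · exact (Sum.inl.inj h).symm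
    · cases h
  have hp' : p = (a, p.2) := Prod.ext hp1 rfl
  have hq' : q = (a, q.2) := Prod.ext hq1 rfl
  by_cases hb : p.2 = b
  · refine ⟨q.2, fun h => hpq ?_, hq' ▸ hq.1, hq.2.2⟩
    rw [hp', hq', hb, h]
  · exact ⟨p.2, hb, hp' ▸ hp.1, hp.2.2⟩

theorem d1c_other_inr {W : Finset (Fin N ⊕ Fin N)} (hW : W ∈ mc E n) {a b : Fin N}
    (hb : (Sum.inr b : Fin N ⊕ Fin N) ∈ W) : ∃ a' : Fin N, a' ≠ a ∧ (a', b) ∈ E ∧
      (Sum.inl a' : Fin N ⊕ Fin N) ∈ W := by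
  obtain ⟨p, q, hpq, hp, hq, hxp, hxq⟩ := d1c_two hW hb
  have hp1 : p.2 = b := by
    rcases hxp with h | h
    · cases h
    · exact (Sum.inr.inj h).symm
  have hq1 : q.2 = b := by
    rcases hxq with h | h
    · cases h
    · exact (Sum.inr.inj h).symm
  have hp' : p = (p.1, b) := Prod.ext rfl hp1
  have hq' : q = (q.1, b) := Prod.ext rfl hq1
  by_cases ha : p.1 = a
  · refine ⟨q.1, fun h => hpq ?_, hq' ▸ hq.1, hq.2.1⟩
    rw [hp', hq', ha, h]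
  · exact ⟨p.1, ha, hp' ▸ hp.1, hp.2.1⟩

theorem mc_two {W : Finset (Fin N ⊕ Fin N)} (hW : W ∈ mc E n) : ∃ a₁ b₁ a₂ b₂ : Fin N,
    a₁ ≠ a₂ ∧ b₁ ≠ b₂ ∧ (a₁, b₁) ∈ E ∧ (a₂, b₂) ∈ E ∧ Sum.inl a₁ ∈ W ∧ Sum.inr b₁ ∈ W ∧
      Sum.inl a₂ ∈ W ∧ Sum.inr b₂ ∈ W := by
  obtain ⟨e, heE, he1, he2⟩ := d1c_edge hW
  obtain ⟨b', hb', hE', hW'⟩ := d1c_other_inl (b := e.2) hW he1
  obtain ⟨a', ha', hE2, hW2⟩ := d1c_other_inr (a := e.1) hW hW'
  exact ⟨e.1, e.2, a', b', fun h => ha' h.symm, fun h => hb' h.symm, heE, hE2, he1, he2, hW2, hW'⟩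

end Pool.Agent.Lib.MP_c5b475_co.AA
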