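import Pool.Agent.Lib.MP_c5b475_co.AA.D2a

set_option autoImplicit false

/-!
# D2 (60 min): a perfect matching outside a sparse set of vertices (Hall)

CLAIM: for `S` disjoint from `A1`: `|S| ≤ |nbr E S \ B1|`.  Suppose not.  Then
`|nbr E S| < |S| + |B1| ≤ |S| + q`.  If `2 |S| ≤ N`: `Expd` gives `|S| ≤ s0`, contradiction to `small`.
If `2 |S| > N`: `Q := (B1 ∪ nbr E S)ᶜ` satisfies `|Q| = N - |B1| - |nbr E S \ B1| > N - |A1| - |S|`, and
`nbr (tr E) Q ⊆ Sᶜ`, so `|nbr (tr E) Q \ A1| ≤ N - |A1| - |S| < |Q|`, and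
`|Q| ≤ |nbr (tr E) Q| ≤ N - |S| < N / 2` (`card_nbr_ge`): the same contradiction for `tr E` (`LS_tr`,
`tr_mem`).  Then Hall (`Finset.all_card_le_biUnion_card_iff_exists_injective` with
`ι = {a // a ∉ A1}`, `t a = {b : b ∉ B1, (a, b) ∈ E}`); `f a := a` for `a ∈ A1`.
-/

namespace Pool.Agent.Lib.MP_c5b475_co.AA

open Finset

variable {N : ℕ}

/-- Sets of at most half of the vertices. -/
theorem D2_half {n L q s0 : ℕ} (hn : 4 ≤ n) {E : Finset (Fin N × Fin N)} (hE : E ∈ BReg N n)
    (hLS : LS E L) (hL : (n + 1) * s0 ≤ L) (hex : Expd E q s0)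
    (B1 : Finset (Fin N)) (hq : B1.card ≤ q)
    (hA : ∀ a, ((B1.filter fun b => (a, b) ∈ E)).card ≤ 2) (S : Finset (Fin N))
    (hS : 2 * S.card ≤ N) : S.card ≤ (nbr E S \ B1).card := by
  by_contra hlt
  push Not at hlt
  have h1 : (nbr E S).card ≤ (nbr E S \ B1).card + B1.card := by
    have h0 : nbr E S ⊆ (nbr E S \ B1) ∪ B1 := by
      rw [sdiff_union_self_eq_union]
      exact subset_union_left
    exact (card_le_card h0).trans (card_union_le _ _)
  by_cases hs : s0 < S.card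
  · have := hex S hs hS
    omega
  · push Not at hs
    have := small hn hE hLS hL B1 hA S hs
    omega

theorem D2_hall {n L q s0 : ℕ} (hn : 4 ≤ n) {E : Finset (Fin N × Fin N)} (hE : E ∈ BReg N n)
    (hLS : LS E L) (hL : (n + 1) * s0 ≤ L) (hex : Expd E q s0) (hex' : Expd (tr E) q s0)
    (A1 B1 : Finset (Fin N)) (hAB : A1.card = B1.card) (hq : B1.card ≤ q)
    (hA : ∀ a, ((B1.filter fun b => (a, b) ∈ E)).card ≤ 2)
    (hB : ∀ b, ((A1.filter fun a => (a, b) ∈ E)).card ≤ 2) (S : Finset (Fin N))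
    (hS : Disjoint S A1) : S.card ≤ (nbr E S \ B1).card := by
  by_cases h2 : 2 * S.card ≤ N
  · exact D2_half hn hE hLS hL hex B1 hq hA S h2
  · push Not at h2
    by_contra hlt
    push Not at hlt
    obtain ⟨Q, hQ⟩ : ∃ Q, Q = (B1 ∪ nbr E S)ᶜ := ⟨_, rfl⟩
    have hnQ : nbr (tr E) Q ⊆ Sᶜ := by
      intro a ha
      unfold nbr at ha
      rw [mem_filter] at ha
      obtain ⟨_, b, hb, hab⟩ := ha
      rw [mem_tr] at hab
      rw [mem_compl]
      intro haS
      rw [hQ, mem_compl, mem_union, not_or] at hb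
      apply hb.2
      unfold nbr
      rw [mem_filter]
      exact ⟨mem_univ _, a, haS, hab⟩
    have e1 : (B1 ∪ nbr E S).card + Q.card = N := by
      rw [hQ, card_add_card_compl, Fintype.card_fin]
    have e2 : (B1 ∪ nbr E S).card = B1.card + (nbr E S \ B1).card := by
      rw [← card_union_of_disjoint disjoint_sdiff, union_sdiff_self_eq_union]
    have e3 : (S ∪ A1).card = S.card + A1.card := card_union_of_disjoint hS
    have e4 : (S ∪ A1).card + (S ∪ A1)ᶜ.card = N := by
      rw [card_add_card_compl, Fintype.card_fin]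
    have e5 : (nbr (tr E) Q \ A1).card ≤ (S ∪ A1)ᶜ.card := by
      apply card_le_card
      intro a ha
      rw [mem_sdiff] at ha
      rw [mem_compl, mem_union, not_or]
      exact ⟨mem_compl.mp (hnQ ha.1), ha.2⟩
    have e6 : S.card + Sᶜ.card = N := by
      rw [card_add_card_compl, Fintype.card_fin]
    have e7 : (nbr (tr E) Q).card ≤ Sᶜ.card := card_le_card hnQ
    have htr : tr E ∈ BReg N n := tr_mem.mpr hE
    have e8 : Q.card ≤ (nbr (tr E) Q).card := card_nbr_ge (by omega) htr Q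
    have e9 : Q.card ≤ (nbr (tr E) Q \ A1).card :=
      D2_half hn htr (LS_tr hLS) hL hex' A1 (by omega) (by
        intro b
        have := hB b
        refine le_trans (le_of_eq ?_) this
        congr 1
        ext a
        rw [mem_filter, mem_filter, mem_tr]) Q (by omega)
    omega

theorem hall_part {n L q s0 : ℕ} (hn : 4 ≤ n) {E : Finset (Fin N × Fin N)} (hE : E ∈ BReg N n)
    (hLS : LS E L) (hL : (n + 1) * s0 ≤ L) (hex : Expd E q s0) (hex' : Expd (tr E) q s0)
    (A1 B1 : Finset (Fin N)) (hAB : A1.card = B1.card) (hq : B1.card ≤ q)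
    (hA : ∀ a, ((B1.filter fun b => (a, b) ∈ E)).card ≤ 2)
    (hB : ∀ b, ((A1.filter fun a => (a, b) ∈ E)).card ≤ 2) :
    ∃ f : Fin N → Fin N, (∀ a, a ∉ A1 → f a ∉ B1 ∧ (a, f a) ∈ E) ∧
      ∀ a a', a ∉ A1 → a' ∉ A1 → f a = f a' → a = a' := by
  classical
  have hall := (Finset.all_card_le_biUnion_card_iff_exists_injective
    (ι := {a : Fin N // a ∉ A1}) (fun a => univ.filter fun b => b ∉ B1 ∧ (a.1, b) ∈ E)).mp (by
      intro S
      have h1 := D2_hall hn hE hLS hL hex hex' A1 B1 hAB hq hA hB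
        (S.map (Function.Embedding.subtype _)) (by
          rw [Finset.disjoint_left]
          intro a ha
          rw [mem_map] at ha
          obtain ⟨x, _, rfl⟩ := ha
          exact x.2)
      rw [card_map] at h1
      refine h1.trans (card_le_card ?_)
      intro b hb
      rw [mem_sdiff] at hb
      obtain ⟨hb1, hb2⟩ := hb
      unfold nbr at hb1
      rw [mem_filter] at hb1
      obtain ⟨_, a, ha, hab⟩ := hb1
      rw [mem_map] at ha
      obtain ⟨x, hx, rfl⟩ := ha
      rw [mem_biUnion]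
      refine ⟨x, hx, ?_⟩
      rw [mem_filter]
      exact ⟨mem_univ _, hb2, hab⟩)
  obtain ⟨g, hg1, hg2⟩ := hall
  refine ⟨fun a => if h : a ∈ A1 then a else g ⟨a, h⟩, ?_, ?_⟩
  · intro a ha
    have := hg2 ⟨a, ha⟩
    rw [mem_filter] at this
    simp only [dif_neg ha]
    exact this.2
  · intro a a' ha ha' h
    simp only [dif_neg ha, dif_neg ha'] at h
    have := hg1 h
    exact Subtype.mk.inj this

end Pool.Agent.Lib.MP_c5b475_co.AA
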