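import Pool.Agent.Lib.MP_c5b475_co.AA.ExT

set_option autoImplicit false

/-!
# D2a (40 min): no small Hall violator

`card_nbr_ge`: double counting, `n |S|` edges, at most `n` at every element of `nbr E S`.
`small`: `W := S ∪ nbr E S` (left copy of `S`, right copy of `nbr E S`) has
`|nbr E S| ≤ |nbr E S \ B1| + |nbr E S ∩ B1| ≤ (|S| - 1) + 2 |S|` (every element of `nbr E S ∩ B1` is one of
the at most two neighbours in `B1` of some `a ∈ S`), so `|W| ≤ 4 |S| - 1`; also `|nbr E S| ≤ n |S|`, so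
`|W| ≤ (n + 1) s0 ≤ L`; and `eW E W ≥ n |S| ≥ 4 |S|` (all edges at `S`).  Contradiction to `LS`.
`LS_tr`: exchange `inl` and `inr` in `W` (`W.image Sum.swap`).
-/

namespace Pool.Agent.Lib.MP_c5b475_co.AA

open Finset

variable {N : ℕ}

/-- The edges at a set of vertices of the first class. -/
theorem D2a_edges {n : ℕ} {E : Finset (Fin N × Fin N)} (hE : E ∈ BReg N n)
    (S : Finset (Fin N)) : (E.filter fun p => p.1 ∈ S).card = n * S.card := by
  unfold BReg at hE
  rw [mem_filter] at hE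
  have h := card_eq_sum_card_fiberwise (s := E.filter fun p => p.1 ∈ S) (t := S)
    (f := fun p : Fin N × Fin N => p.1) (by
      intro p hp
      rw [mem_coe, mem_filter] at hp
      exact hp.2)
  rw [h, sum_congr rfl (g := fun _ => n)]
  · rw [sum_const, smul_eq_mul, mul_comm]
  · intro a ha
    rw [← hE.2.1 a]
    congr 1
    ext p
    rw [mem_filter, mem_filter, mem_filter]
    constructor
    · rintro ⟨⟨h1, _⟩, h2⟩
      exact ⟨h1, h2⟩
    · rintro ⟨h1, h2⟩
      exact ⟨⟨h1, by rw [h2]; exact ha⟩, h2⟩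

theorem D2a_nbr_le {n : ℕ} {E : Finset (Fin N × Fin N)} (hE : E ∈ BReg N n)
    (S : Finset (Fin N)) : (nbr E S).card ≤ n * S.card := by
  rw [← D2a_edges hE S]
  have h : nbr E S ⊆ (E.filter fun p => p.1 ∈ S).image (fun p => p.2) := by
    intro b hb
    unfold nbr at hb
    rw [mem_filter] at hb
    obtain ⟨_, a, ha, hab⟩ := hb
    rw [mem_image]
    exact ⟨(a, b), by rw [mem_filter]; exact ⟨hab, ha⟩, rfl⟩
  exact (card_le_card h).trans card_image_le

theorem card_nbr_ge {n : ℕ} (hn : 1 ≤ n) {E : Finset (Fin N × Fin N)} (hE : E ∈ BReg N n)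
    (S : Finset (Fin N)) : S.card ≤ (nbr E S).card := by
  have h1 := D2a_edges hE S
  have hE' := hE
  unfold BReg at hE'
  rw [mem_filter] at hE'
  have h2 : (E.filter fun p => p.1 ∈ S).card ≤ n * (nbr E S).card := by
    have h := card_eq_sum_card_fiberwise (s := E.filter fun p => p.1 ∈ S) (t := nbr E S)
      (f := fun p : Fin N × Fin N => p.2) (by
        intro p hp
        rw [mem_coe, mem_filter] at hp
        rw [mem_coe]
        unfold nbr
        rw [mem_filter]
        exact ⟨mem_univ _, p.1, hp.2, hp.1⟩)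
    rw [h]
    refine (sum_le_sum (g := fun _ => n) ?_).trans ?_
    · intro b _
      rw [← hE'.2.2 b]
      apply card_le_card
      intro p hp
      rw [mem_filter, mem_filter] at hp
      rw [mem_filter]
      exact ⟨hp.1.1, hp.2⟩
    · rw [sum_const, smul_eq_mul, mul_comm]
  rw [h1] at h2
  exact Nat.le_of_mul_le_mul_left h2 (by omega)

theorem LS_tr {L : ℕ} {E : Finset (Fin N × Fin N)} (h : LS E L) : LS (tr E) L := by
  intro W hW
  have hinj : Function.Injective (Sum.swap : Fin N ⊕ Fin N → Fin N ⊕ Fin N) :=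
    Function.LeftInverse.injective Sum.swap_swap
  have hc : (W.image Sum.swap).card = W.card := card_image_of_injective _ hinj
  have h1 := h (W.image Sum.swap) (by rw [hc]; exact hW)
  rw [hc] at h1
  refine le_trans (le_of_eq ?_) h1
  unfold eW
  have hl : ∀ a : Fin N, Sum.inl a ∈ W.image (Sum.swap : Fin N ⊕ Fin N → Fin N ⊕ Fin N) ↔
      Sum.inr a ∈ W := by
    intro a
    rw [mem_image]
    constructor
    · rintro ⟨x, hx, hxa⟩
      cases x with
      | inl y => simp at hxa
      | inr y =>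
        rw [Sum.swap_inr, Sum.inl.injEq] at hxa
        rw [← hxa]
        exact hx
    · intro hx
      exact ⟨_, hx, rfl⟩
  have hr : ∀ a : Fin N, Sum.inr a ∈ W.image (Sum.swap : Fin N ⊕ Fin N → Fin N ⊕ Fin N) ↔
      Sum.inl a ∈ W := by
    intro a
    rw [mem_image]
    constructor
    · rintro ⟨x, hx, hxa⟩
      cases x with
      | inr y => simp at hxa
      | inl y =>
        rw [Sum.swap_inl, Sum.inr.injEq] at hxa
        rw [← hxa]
        exact hx
    · intro hx
      exact ⟨_, hx, rfl⟩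
  have he : (E.filter fun p => Sum.inl p.1 ∈ W.image (Sum.swap : Fin N ⊕ Fin N → Fin N ⊕ Fin N) ∧
      Sum.inr p.2 ∈ W.image (Sum.swap : Fin N ⊕ Fin N → Fin N ⊕ Fin N)) =
      E.filter fun p => Sum.inr p.1 ∈ W ∧ Sum.inl p.2 ∈ W := by
    ext p
    rw [mem_filter, mem_filter, hl, hr]
  rw [he]
  have ht : ((tr E).filter fun p => Sum.inl p.1 ∈ W ∧ Sum.inr p.2 ∈ W) =
      (E.filter fun p => Sum.inr p.1 ∈ W ∧ Sum.inl p.2 ∈ W).image Prod.swap := by
    ext ⟨b, a⟩
    rw [mem_filter, mem_image, mem_tr]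
    constructor
    · rintro ⟨h1, h2, h3⟩
      exact ⟨(a, b), by rw [mem_filter]; exact ⟨h1, h3, h2⟩, rfl⟩
    · rintro ⟨⟨x, y⟩, hx, hxy⟩
      rw [mem_filter] at hx
      rw [Prod.swap_prod_mk, Prod.mk.injEq] at hxy
      obtain ⟨rfl, rfl⟩ := hxy
      exact ⟨hx.1, hx.2.2, hx.2.1⟩
  rw [ht, card_image_of_injective _ Prod.swap_injective]

theorem small {n L s0 : ℕ} (hn : 4 ≤ n) {E : Finset (Fin N × Fin N)} (hE : E ∈ BReg N n)
    (hLS : LS E L) (hL : (n + 1) * s0 ≤ L) (B1 : Finset (Fin N))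
    (hA : ∀ a, ((B1.filter fun b => (a, b) ∈ E)).card ≤ 2) (S : Finset (Fin N))
    (hS : S.card ≤ s0) : S.card ≤ (nbr E S \ B1).card := by
  by_contra hlt
  push Not at hlt
  -- the neighbours in `B1`
  have h1 : (nbr E S ∩ B1).card ≤ 2 * S.card := by
    have hsub : nbr E S ∩ B1 ⊆ S.biUnion (fun a => B1.filter fun b => (a, b) ∈ E) := by
      intro b hb
      rw [mem_inter] at hb
      obtain ⟨hb1, hb2⟩ := hb
      unfold nbr at hb1
      rw [mem_filter] at hb1
      obtain ⟨_, a, ha, hab⟩ := hb1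
      rw [mem_biUnion]
      exact ⟨a, ha, by rw [mem_filter]; exact ⟨hb2, hab⟩⟩
    refine (card_le_card hsub).trans ((card_biUnion_le).trans ?_)
    refine (sum_le_sum (g := fun _ => 2) (fun a _ => hA a)).trans ?_
    rw [sum_const, smul_eq_mul, mul_comm]
  have h2 : (nbr E S).card = (nbr E S \ B1).card + (nbr E S ∩ B1).card := by
    rw [card_sdiff_add_card_inter]
  have h3 := D2a_nbr_le hE S
  obtain ⟨W, hW⟩ : ∃ W : Finset (Fin N ⊕ Fin N), W = S.disjSum (nbr E S) := ⟨_, rfl⟩
  have hWc : W.card = S.card + (nbr E S).card := by rw [hW, card_disjSum]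
  have h4 : W.card ≤ L := by
    refine le_trans ?_ hL
    calc W.card ≤ S.card + n * S.card := by omega
      _ = (n + 1) * S.card := by ring
      _ ≤ (n + 1) * s0 := Nat.mul_le_mul_left _ hS
  have h5 := hLS W h4
  have h6 : n * S.card ≤ eW E W := by
    rw [← D2a_edges hE S]
    unfold eW
    apply card_le_card
    intro p hp
    rw [mem_filter] at hp ⊢
    refine ⟨hp.1, ?_, ?_⟩
    · rw [hW, inl_mem_disjSum]
      exact hp.2
    · rw [hW, inr_mem_disjSum]
      unfold nbr
      rw [mem_filter]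
      exact ⟨mem_univ _, p.1, hp.2, hp.1⟩
  have h7 : 4 * S.card ≤ n * S.card := Nat.mul_le_mul_right _ hn
  omega

end Pool.Agent.Lib.MP_c5b475_co.AA
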