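import Pool.Agent.Lib.MP_c5b475_co.AA.D4a
import Pool.Agent.Lib.MP_c5b475_co.AA.D4b

set_option autoImplicit false

/-!
# D4 (30 min): the colour walk decomposes

Root `T`: `exists_RT` (Rooted.lean; see how Final.lean calls it).  `{u // u ≠ R.c}` has `n` elements;
choose `i0` in it (`n ≥ 1`).  `exists_colours`, then `RT.decompose_layer'` with `I = univ`, `s` = `0` on
the left, `1` on the right (`ZMod 2`); `hin` is `phi_injective`, `hout` and `hno` are vacuous.  Repackage the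
index type (`{v // s v = 0}` is in `Type`).
-/

namespace Pool.Agent.Lib.MP_c5b475_co.AA

open Finset

variable {N : ℕ}

theorem walk_decomposes {n L : ℕ} (hn : 4 ≤ n) {E : Finset (Fin N × Fin N)} (hE : E ∈ BReg N n)
    (hLS : LS E L) (hL : n ≤ L) (σ : Equiv.Perm (Fin N)) (h1 : ∀ a, (a, σ a) ∈ E)
    (h2 : ∀ W ∈ cyc E n, ∃ a₁ a₂, a₁ ≠ a₂ ∧
      Sum.inl a₁ ∈ W ∧ Sum.inr (σ a₁) ∈ W ∧ Sum.inl a₂ ∈ W ∧ Sum.inr (σ a₂) ∈ W)
    (T : SimpleGraph (Fin (n + 1))) (hT : T.IsTree) : Decomposes T (gr E) := by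
  classical
  obtain ⟨R, hRc, hRd⟩ := exists_RT hT 0
  have hcard : Fintype.card {u : Fin (n + 1) // u ≠ R.c} = n := by
    rw [Fintype.card_subtype_compl, Fintype.card_subtype_eq]
    simp
  have hne : Nonempty {u : Fin (n + 1) // u ≠ R.c} := by
    rw [← Fintype.card_pos_iff, hcard]
    omega
  obtain ⟨i0⟩ := hne
  obtain ⟨m, m1, m2, m3, m4⟩ := exists_colours hE σ h1 hcard i0
  let s : Fin N ⊕ Fin N → ZMod 2 := Sum.elim (fun _ => 0) (fun _ => 1)
  obtain ⟨f, hf1, hf2⟩ := R.decompose_layer' univ (mem_univ _) (fun u _ _ => mem_univ _)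
    (fun u _ => mem_univ _) m m1 m2 m3 s (by
      rintro u v ⟨a, b, -, ⟨rfl, rfl⟩ | ⟨rfl, rfl⟩⟩
      · change (1 : ZMod 2) = 0 + 1
        decide
      · change (0 : ZMod 2) = 1 + 1
        decide)
    (fun v _ u _ u' _ h => phi_injective hLS hL σ h2 R m m1 m2 m3 i0 m4 v u u' h)
    (fun v _ w hw => absurd (mem_univ _) hw)
  exact ⟨_, f, hf1, hf2⟩

end Pool.Agent.Lib.MP_c5b475_co.AA
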