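import Pool.Agent.Lib.MP_c5b475_co.AA.Defs
import Pool.Agent.Lib.MP_c5b475_co.Factor

set_option autoImplicit false

/-!
# D4a (50 min): a 1-factorization of `gr E` containing a given perfect matching

`μ (inl a) = inr (σ a)`, `μ (inr b) = inl (σ⁻¹ b)` is a perfect matching (an involution) of `gr E`; the
graph `G'` = `gr E` minus the edges of `μ` is regular of degree `n - 1 = card {i : ι // i ≠ i0}`; use
`exists_factorization'` (side = `Sum.isLeft`) for `G'` with this index type and put `m i0 := μ`, as in the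
proof of `exists_factorization`.
-/

namespace Pool.Agent.Lib.MP_c5b475_co.AA

open Finset

variable {N : ℕ}

theorem gr_adj {E : Finset (Fin N × Fin N)} {a b : Fin N} :
    (gr E).Adj (Sum.inl a) (Sum.inr b) ↔ (a, b) ∈ E := by
  simp [gr]

theorem D4a_adj' {E : Finset (Fin N × Fin N)} {a b : Fin N} :
    (gr E).Adj (Sum.inr b) (Sum.inl a) ↔ (a, b) ∈ E := by
  rw [SimpleGraph.adj_comm, gr_adj]

open scoped Classical in
theorem D4a_degree {n : ℕ} {E : Finset (Fin N × Fin N)} (hE : E ∈ BReg N n)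
    (v : Fin N ⊕ Fin N) : (gr E).degree v = n := by
  unfold BReg at hE
  rw [mem_filter] at hE
  obtain ⟨_, hE1, hE2⟩ := hE
  rw [← SimpleGraph.card_neighborFinset_eq_degree]
  cases v with
  | inl a =>
    have h : (gr E).neighborFinset (Sum.inl a) =
        (E.filter fun p => p.1 = a).image (fun p => Sum.inr p.2) := by
      ext w
      rw [SimpleGraph.mem_neighborFinset, mem_image]
      constructor
      · rintro ⟨a', b', hab, ⟨h1, h2⟩ | ⟨h1, h2⟩⟩
        · rw [Sum.inl.injEq] at h1
          refine ⟨(a', b'), ?_, h2.symm⟩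
          rw [mem_filter]
          exact ⟨hab, h1.symm⟩
        · exact absurd h1 (by simp)
      · rintro ⟨⟨a', b'⟩, hp, rfl⟩
        rw [mem_filter] at hp
        obtain ⟨hp1, hp2⟩ := hp
        simp only at hp2
        subst hp2
        exact gr_adj.mpr hp1
    rw [h, card_image_of_injOn, hE1 a]
    rintro ⟨a1, b1⟩ h1 ⟨a2, b2⟩ h2 h3
    rw [mem_coe, mem_filter] at h1 h2
    simp only at h1 h2 h3
    rw [Sum.inr.injEq] at h3
    rw [h1.2, h2.2, h3]
  | inr b =>
    have h : (gr E).neighborFinset (Sum.inr b) =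
        (E.filter fun p => p.2 = b).image (fun p => Sum.inl p.1) := by
      ext w
      rw [SimpleGraph.mem_neighborFinset, mem_image]
      constructor
      · rintro ⟨a', b', hab, ⟨h1, h2⟩ | ⟨h1, h2⟩⟩
        · exact absurd h1 (by simp)
        · rw [Sum.inr.injEq] at h1
          refine ⟨(a', b'), ?_, h2.symm⟩
          rw [mem_filter]
          exact ⟨hab, h1.symm⟩
      · rintro ⟨⟨a', b'⟩, hp, rfl⟩
        rw [mem_filter] at hp
        obtain ⟨hp1, hp2⟩ := hp
        simp only at hp2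
        subst hp2
        exact D4a_adj'.mpr hp1
    rw [h, card_image_of_injOn, hE2 b]
    rintro ⟨a1, b1⟩ h1 ⟨a2, b2⟩ h2 h3
    rw [mem_coe, mem_filter] at h1 h2
    simp only at h1 h2 h3
    rw [Sum.inl.injEq] at h3
    rw [h1.2, h2.2, h3]

theorem exists_colours {n : ℕ} {E : Finset (Fin N × Fin N)} (hE : E ∈ BReg N n)
    (σ : Equiv.Perm (Fin N)) (h1 : ∀ a, (a, σ a) ∈ E) {ι : Type} [Fintype ι] [DecidableEq ι]
    (hι : Fintype.card ι = n) (i0 : ι) :
    ∃ m : ι → Fin N ⊕ Fin N → Fin N ⊕ Fin N, (∀ i v, (gr E).Adj v (m i v)) ∧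
      (∀ i v, m i (m i v) = v) ∧ (∀ u v, (gr E).Adj u v → ∃! i, m i u = v) ∧
      ∀ a, m i0 (Sum.inl a) = Sum.inr (σ a) := by
  classical
  obtain ⟨μ, hμ⟩ : ∃ μ : Fin N ⊕ Fin N → Fin N ⊕ Fin N,
      μ = Sum.elim (fun a => Sum.inr (σ a)) (fun b => Sum.inl (σ.symm b)) := ⟨_, rfl⟩
  have hμl : ∀ a, μ (Sum.inl a) = Sum.inr (σ a) := fun a => by rw [hμ]; rfl
  have hμr : ∀ b, μ (Sum.inr b) = Sum.inl (σ.symm b) := fun b => by rw [hμ]; rfl
  have hμ1 : ∀ v, (gr E).Adj v (μ v) := by
    intro v
    cases v with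
    | inl a => rw [hμl]; exact gr_adj.mpr (h1 a)
    | inr b =>
      rw [hμr]
      apply D4a_adj'.mpr
      have := h1 (σ.symm b)
      rwa [Equiv.apply_symm_apply] at this
  have hμ2 : ∀ v, μ (μ v) = v := by
    intro v
    cases v with
    | inl a => rw [hμl, hμr, Equiv.symm_apply_apply]
    | inr b => rw [hμr, hμl, Equiv.apply_symm_apply]
  let G' : SimpleGraph (Fin N ⊕ Fin N) :=
    { Adj := fun u v => (gr E).Adj u v ∧ μ u ≠ v
      symm := ⟨fun u v h => ⟨h.1.symm, fun e => h.2 (by rw [← e, hμ2])⟩⟩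
      loopless := ⟨fun v h => (gr E).loopless.irrefl v h.1⟩ }
  have hG' : ∀ u v, G'.Adj u v ↔ (gr E).Adj u v ∧ μ u ≠ v := fun u v => Iff.rfl
  have hcard : Fintype.card {i : ι // i ≠ i0} = n - 1 := by
    rw [Fintype.card_subtype_compl, Fintype.card_subtype_eq, hι]
  obtain ⟨m', k1, k2, k3⟩ := exists_factorization' (fun v : Fin N ⊕ Fin N => v.isLeft)
    (W := {i : ι // i ≠ i0}) G' (by
      intro v
      have : G'.neighborFinset v = ((gr E).neighborFinset v).erase (μ v) := by
        ext w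
        rw [SimpleGraph.mem_neighborFinset, hG', mem_erase, SimpleGraph.mem_neighborFinset]
        tauto
      rw [← G'.card_neighborFinset_eq_degree, this, card_erase_of_mem (by simpa using hμ1 v),
        (gr E).card_neighborFinset_eq_degree, D4a_degree hE v, hcard])
    (by
      rintro u v ⟨⟨a, b, _, ⟨rfl, rfl⟩ | ⟨rfl, rfl⟩⟩, _⟩ <;> simp)
  refine ⟨fun i => if h : i = i0 then μ else m' ⟨i, h⟩, ?_, ?_, ?_, ?_⟩
  · intro i v
    by_cases h : i = i0
    · simp only [dif_pos h]
      exact hμ1 v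
    · simp only [dif_neg h]
      exact (k1 _ v).1
  · intro i v
    by_cases h : i = i0
    · simp only [dif_pos h]
      exact hμ2 v
    · simp only [dif_neg h]
      exact k2 _ v
  · intro u v huv
    by_cases hmu : μ u = v
    · refine ⟨i0, ?_, ?_⟩
      · simp only [dif_pos]
        exact hmu
      · intro i hi
        by_contra h
        simp only [dif_neg h] at hi
        have h4 := k1 ⟨i, h⟩ u
        rw [hi] at h4
        exact h4.2 hmu
    · obtain ⟨i, hi, hu⟩ := k3 u v ⟨huv, hmu⟩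
      refine ⟨i.1, ?_, ?_⟩
      · simp only [dif_neg i.2]
        exact hi
      · intro j hj
        by_cases h : j = i0
        · simp only [dif_pos h] at hj
          exact absurd hj hmu
        · simp only [dif_neg h] at hj
          exact congrArg Subtype.val (hu ⟨j, h⟩ hj)
  · intro a
    simp only [dif_pos]
    exact hμl a

end Pool.Agent.Lib.MP_c5b475_co.AA
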