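import Pool.Agent.Lib.MP_c5b475_co.Defs

set_option autoImplicit false

/-!
# Almost all hosts: definitions

The `n`-regular bipartite graphs with classes `Fin N`, `Fin N`, as sets of pairs, and their
properties: locally sparse, few short cycles, expansion.
-/

namespace Pool.Agent.Lib.MP_c5b475_co.AA

open Finset

/-- The `n`-regular bipartite graphs with classes `Fin N` and `Fin N`, as sets of pairs. -/
def BReg (N n : ℕ) : Finset (Finset (Fin N × Fin N)) :=
  univ.filter fun E => (∀ a, (E.filter fun p => p.1 = a).card = n) ∧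
    ∀ b, (E.filter fun p => p.2 = b).card = n

variable {N : ℕ}

/-- The number of edges with both ends in `W`. -/
def eW (E : Finset (Fin N × Fin N)) (W : Finset (Fin N ⊕ Fin N)) : ℕ :=
  (E.filter fun p => Sum.inl p.1 ∈ W ∧ Sum.inr p.2 ∈ W).card

/-- Locally sparse: at most `L` vertices span at most as many edges as vertices. -/
def LS (E : Finset (Fin N × Fin N)) (L : ℕ) : Prop :=
  ∀ W : Finset (Fin N ⊕ Fin N), W.card ≤ L → eW E W ≤ W.card

/-- The nonempty sets of at most `n` vertices that span at least as many edges as vertices. -/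
def cyc (E : Finset (Fin N × Fin N)) (n : ℕ) : Finset (Finset (Fin N ⊕ Fin N)) :=
  univ.filter fun W => W.Nonempty ∧ W.card ≤ n ∧ W.card ≤ eW E W

/-- The minimal ones. -/
def mc (E : Finset (Fin N × Fin N)) (n : ℕ) : Finset (Finset (Fin N ⊕ Fin N)) :=
  (cyc E n).filter fun W => ∀ W' ∈ cyc E n, W' ⊆ W → W' = W

/-- The neighbours of a set of vertices of the first class. -/
def nbr (E : Finset (Fin N × Fin N)) (S : Finset (Fin N)) : Finset (Fin N) :=
  univ.filter fun b => ∃ a ∈ S, (a, b) ∈ E

/-- Expansion of the sets of the first class with more than `s0` and at most `N / 2` elements. -/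
def Expd (E : Finset (Fin N × Fin N)) (q s0 : ℕ) : Prop :=
  ∀ S : Finset (Fin N), s0 < S.card → 2 * S.card ≤ N → S.card + q ≤ (nbr E S).card

/-- Exchange of the classes. -/
def tr (E : Finset (Fin N × Fin N)) : Finset (Fin N × Fin N) := E.image Prod.swap

/-- The graph of a set of pairs. -/
def gr (E : Finset (Fin N × Fin N)) : SimpleGraph (Fin N ⊕ Fin N) where
  Adj x y := ∃ a b, (a, b) ∈ E ∧ ((x = Sum.inl a ∧ y = Sum.inr b) ∨ (x = Sum.inr b ∧ y = Sum.inl a))
  symm := ⟨fun x y h => by
    obtain ⟨a, b, h1, h2 | h2⟩ := h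
    · exact ⟨a, b, h1, Or.inr ⟨h2.2, h2.1⟩⟩
    · exact ⟨a, b, h1, Or.inl ⟨h2.2, h2.1⟩⟩⟩
  loopless := ⟨fun x h => by
    obtain ⟨a, b, h1, ⟨h2, h3⟩ | ⟨h2, h3⟩⟩ := h
    · rw [h2] at h3; exact absurd h3 (by simp)
    · rw [h2] at h3; exact absurd h3 (by simp)⟩

/-- Switching: the edges `ab`, `a'b'` are replaced by `ab'`, `a'b`. -/
def swc (E : Finset (Fin N × Fin N)) (a b a' b' : Fin N) : Finset (Fin N × Fin N) :=
  insert (a, b') (insert (a', b) ((E.erase (a, b)).erase (a', b')))

/-- Number of edges from `S` to the complement of `Q`. -/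
def cr (E : Finset (Fin N × Fin N)) (S Q : Finset (Fin N)) : ℕ :=
  (E.filter fun p => p.1 ∈ S ∧ p.2 ∉ Q).card

/-- Number of regular graphs with exactly `j` edges from `S` to the complement of `Q`. -/
def gj (n : ℕ) (S Q : Finset (Fin N)) (j : ℕ) : ℕ := ((BReg N n).filter fun E => cr E S Q = j).card

/-- `n`-regular bipartite host with classes `Fin N`, `Fin N`. -/
def IsHost (N n : ℕ) (G : SimpleGraph (Fin N ⊕ Fin N)) : Prop :=
  G ≤ completeBipartiteGraph (Fin N) (Fin N) ∧ ∀ v, (G.neighborSet v).ncard = n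

end Pool.Agent.Lib.MP_c5b475_co.AA
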