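import Pool.Agent.Lib.MP_c5b475_co.AA.SwB

set_option autoImplicit false

/-!
# Ex1 (60 min): one switching step for the number of edges leaving `S × Q`

`|Q| = |S| + q`.  Let `E` be regular with `cr E S Q = j`.  Then (`card_row`, `card_col`)
`e(S, Q) = n |S| - j`, `e(Sᶜ, Qᶜ) = n (N - |Q|) - j`.  For `(a, b) ∈ E` with `a ∈ S`, `b ∈ Q` at least
`n (N - |Q|) - j - 2 n ^ 2` edges `(a', b') ∈ E`, `a' ∉ S`, `b' ∉ Q` have `(a, b') ∉ E`, `(a', b) ∉ E`
(`card_near`).  The map `(E, (a, b), (a', b')) ↦ (swc E a b a' b', (a, b'), (a', b))` is injective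
(`swc_swc`); the new graph has `cr = j + 1`, `(a, b')` is one of its `j + 1` edges from `S` to `Qᶜ` and
`(a', b)` one of its `n |Q| - (n |S| - (j + 1)) = n q + j + 1` edges from `Sᶜ` to `Q`.
-/

namespace Pool.Agent.Lib.MP_c5b475_co.AA

open Finset

variable {N : ℕ}

private theorem ex1_A {n : ℕ} {E : Finset (Fin N × Fin N)} (hE : E ∈ BReg N n)
    (S Q : Finset (Fin N)) :
    (E.filter fun p => p.1 ∈ S ∧ p.2 ∈ Q).card + cr E S Q = n * S.card := by
  rw [← card_row hE S, ← card_filter_add_card_filter_not (s := E.filter fun p => p.1 ∈ S)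
    (fun p => p.2 ∈ Q), filter_filter, filter_filter, cr]

private theorem ex1_B {n : ℕ} {E : Finset (Fin N × Fin N)} (hE : E ∈ BReg N n)
    (S Q : Finset (Fin N)) :
    (E.filter fun p => p.1 ∉ S ∧ p.2 ∉ Q).card + cr E S Q = n * (N - Q.card) := by
  have h := card_col hE Qᶜ
  rw [card_compl, Fintype.card_fin] at h
  rw [← h, ← card_filter_add_card_filter_not (s := E.filter fun p => p.2 ∈ Qᶜ)
    (fun p => p.1 ∈ S), filter_filter, filter_filter, cr, add_comm]
  congr 2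
  · ext p
    simp only [mem_filter, mem_compl]
    tauto
  · ext p
    simp only [mem_filter, mem_compl]
    tauto

private theorem ex1_C {n : ℕ} {E : Finset (Fin N × Fin N)} (hE : E ∈ BReg N n)
    (S Q : Finset (Fin N)) :
    (E.filter fun p => p.1 ∉ S ∧ p.2 ∈ Q).card + (E.filter fun p => p.1 ∈ S ∧ p.2 ∈ Q).card =
      n * Q.card := by
  rw [← card_col hE Q, ← card_filter_add_card_filter_not (s := E.filter fun p => p.2 ∈ Q)
    (fun p => p.1 ∈ S), filter_filter, filter_filter, add_comm]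
  congr 2
  · ext p
    simp only [mem_filter]
    tauto
  · ext p
    simp only [mem_filter]
    tauto

/-- the edges that can be switched with `p` -/
private def ex1G (E : Finset (Fin N × Fin N)) (S Q : Finset (Fin N)) (p : Fin N × Fin N) :
    Finset (Fin N × Fin N) :=
  E.filter fun p' => p'.1 ∉ S ∧ p'.2 ∉ Q ∧ (p.1, p'.2) ∉ E ∧ (p'.1, p.2) ∉ E

private theorem ex1_G {n : ℕ} {E : Finset (Fin N × Fin N)} (hE : E ∈ BReg N n)
    (S Q : Finset (Fin N)) (p : Fin N × Fin N) :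
    n * (N - Q.card) - 2 * n ^ 2 - cr E S Q ≤ (ex1G E S Q p).card := by
  have h1 := ex1_B hE S Q
  have h2 := card_near hE p.1 p.2
  have h3 : (E.filter fun p => p.1 ∉ S ∧ p.2 ∉ Q) ⊆
      ex1G E S Q p ∪ E.filter fun r => (p.1, r.2) ∈ E ∨ (r.1, p.2) ∈ E := by
    intro r hr
    simp only [ex1G, mem_union, mem_filter] at hr ⊢
    tauto
  have h4 := (card_le_card h3).trans (card_union_le _ _)
  omega

theorem ex_step (n : ℕ) (S Q : Finset (Fin N)) (q : ℕ) (hq : Q.card = S.card + q) (j : ℕ) :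
    (n * S.card - j) * (n * (N - Q.card) - 2 * n ^ 2 - j) * gj n S Q j ≤
      (j + 1) * (n * q + j + 1) * gj n S Q (j + 1) := by
  classical
  let X : ℕ → Finset (Finset (Fin N × Fin N)) := fun j => (BReg N n).filter fun E => cr E S Q = j
  let P : Finset (Σ _ : Finset (Fin N × Fin N), Σ _ : Fin N × Fin N, Fin N × Fin N) :=
    (X j).sigma fun E => (E.filter fun p => p.1 ∈ S ∧ p.2 ∈ Q).sigma fun p => ex1G E S Q p
  let R : Finset (Σ _ : Finset (Fin N × Fin N), (Fin N × Fin N) × (Fin N × Fin N)) :=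
    (X (j + 1)).sigma fun E => (E.filter fun p => p.1 ∈ S ∧ p.2 ∉ Q) ×ˢ
      (E.filter fun p => p.1 ∉ S ∧ p.2 ∈ Q)
  have hP : (n * S.card - j) * (n * (N - Q.card) - 2 * n ^ 2 - j) * gj n S Q j ≤ P.card := by
    rw [card_sigma, mul_comm]
    change (X j).card * _ ≤ _
    rw [← smul_eq_mul]
    apply card_nsmul_le_sum
    intro E hE
    rw [mem_filter] at hE
    rw [card_sigma]
    have h1 := ex1_A hE.1 S Q
    have h2 : (E.filter fun p => p.1 ∈ S ∧ p.2 ∈ Q).card = n * S.card - j := by omega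
    rw [← h2, ← smul_eq_mul]
    apply card_nsmul_le_sum
    intro p _
    have := ex1_G hE.1 S Q p
    rw [hE.2] at this
    exact this
  have hR : R.card ≤ (j + 1) * (n * q + j + 1) * gj n S Q (j + 1) := by
    rw [card_sigma, mul_comm]
    change _ ≤ (X (j + 1)).card * _
    rw [← smul_eq_mul]
    apply sum_le_card_nsmul
    intro E hE
    rw [mem_filter] at hE
    rw [card_product]
    have h1 := ex1_A hE.1 S Q
    have h3 := ex1_C hE.1 S Q
    have h4 : (E.filter fun p => p.1 ∈ S ∧ p.2 ∉ Q).card = j + 1 := hE.2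
    rw [h4]
    apply Nat.mul_le_mul_left
    rw [hE.2] at h1
    rw [hq, mul_add] at h3
    omega
  refine hP.trans (le_trans ?_ hR)
  apply card_le_card_of_injOn (fun x =>
    (⟨swc x.1 x.2.1.1 x.2.1.2 x.2.2.1 x.2.2.2, (x.2.1.1, x.2.2.2), (x.2.2.1, x.2.1.2)⟩ :
      Σ _ : Finset (Fin N × Fin N), (Fin N × Fin N) × (Fin N × Fin N)))
  · rintro ⟨E, ⟨a, b⟩, ⟨a', b'⟩⟩ hx
    simp only [P, X, ex1G, mem_coe, mem_sigma, mem_filter] at hx
    obtain ⟨⟨hE, hj⟩, ⟨hab, haS, hbQ⟩, hab', haS', hbQ', h3, h4⟩ := hx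
    have hE' := swc_mem hE hab hab' h3 h4
    simp only [R, X, mem_coe, mem_sigma, mem_filter, mem_product]
    refine ⟨⟨hE', ?_⟩, ⟨?_, haS, hbQ'⟩, ?_, haS', hbQ⟩
    · have h5 : ((swc E a b a' b').filter fun p => p.1 ∈ S ∧ p.2 ∉ Q) =
          insert (a, b') (E.filter fun p => p.1 ∈ S ∧ p.2 ∉ Q) := by
        ext ⟨x, y⟩
        simp only [mem_filter, mem_swc, mem_insert, Prod.mk.injEq]
        constructor
        · rintro ⟨h | h | h, hx, hy⟩
          · exact Or.inl h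
          · exact absurd (h.2 ▸ hbQ) hy
          · exact Or.inr ⟨h.2.2, hx, hy⟩
        · rintro (h | ⟨h, hx, hy⟩)
          · obtain ⟨rfl, rfl⟩ := h
            exact ⟨Or.inl ⟨rfl, rfl⟩, haS, hbQ'⟩
          · refine ⟨Or.inr (Or.inr ⟨?_, ?_, h⟩), hx, hy⟩
            · intro h'
              rw [Prod.mk.injEq] at h'
              exact haS' (h'.1 ▸ hx)
            · intro h'
              rw [Prod.mk.injEq] at h'
              exact hy (h'.2 ▸ hbQ)
      unfold cr
      rw [h5, card_insert_of_notMem (by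
        simp only [mem_filter, not_and]
        intro h; exact absurd h h3)]
      unfold cr at hj
      rw [hj]
    · rw [mem_swc]; exact Or.inl rfl
    · rw [mem_swc]; exact Or.inr (Or.inl rfl)
  · rintro ⟨E, ⟨a, b⟩, ⟨a', b'⟩⟩ hx ⟨E', ⟨c, d⟩, ⟨c', d'⟩⟩ hy hxy
    simp only [P, X, ex1G, mem_coe, mem_sigma, mem_filter] at hx hy
    obtain ⟨⟨hE, hj⟩, ⟨hab, haS, hbQ⟩, hab', haS', hbQ', h3, h4⟩ := hx
    obtain ⟨⟨hE', hj'⟩, ⟨hcd, hcS, hdQ⟩, hcd', hcS', hdQ', h3', h4'⟩ := hy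
    simp only [Sigma.mk.injEq, heq_eq_eq, Prod.mk.injEq] at hxy
    obtain ⟨e1, ⟨rfl, rfl⟩, rfl, rfl⟩ := hxy
    have e2 := swc_swc hab hab' h3 h4
    have e3 := swc_swc hcd hcd' h3' h4'
    rw [e1, e3] at e2
    subst e2
    rfl

end Pool.Agent.Lib.MP_c5b475_co.AA
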