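import Pool.Agent.Lib.MP_c5b475_co.AA.Ex1

set_option autoImplicit false

/-!
# Ex2 (45 min): probability that `S` has all its neighbours in `Q`

`M := n (N - |Q|) - 2 n ^ 2`, `s := |S|`.  CLAIM `C(ns, j) C(M, j) g_0 ≤ C(nq + j, j) g_j` for all `j`:
induction with `ex_step`: `C(ns, j+1) (j+1) = C(ns, j) (ns - j)`, same for `M`, and
`C(nq+j+1, j+1) (j+1) = C(nq+j, j) (nq+j+1)` (`Nat.choose_succ_right_eq`,
`Nat.add_one_mul_choose_eq`); multiply by `(j+1)^2` and cancel.  Sum over `j ≤ ns`:
`∑_j C(ns, j) C(M, j) = C(ns + M, ns)` (Vandermonde `Nat.add_choose_eq`, `C(ns, j) = C(ns, ns - j)`),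
`C(nq + j, j) = C(nq + j, nq) ≤ C(nq + ns, nq) = C(n (s + q), n s)`, `∑_j g_j ≤ #BReg` (disjoint
classes).  Finally `n N - n q - 2 n ^ 2 ≤ n s + M` (natural subtraction) and `Nat.choose_le_choose`.
-/

namespace Pool.Agent.Lib.MP_c5b475_co.AA

open Finset

variable {N : ℕ}

theorem ex2_claim (n : ℕ) (S Q : Finset (Fin N)) (q : ℕ) (hq : Q.card = S.card + q) (j : ℕ) :
    (n * S.card).choose j * (n * (N - Q.card) - 2 * n ^ 2).choose j * gj n S Q 0 ≤
      (n * q + j).choose j * gj n S Q j := by
  induction j with
  | zero => simp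
  | succ j ih =>
    have hs := ex_step n S Q q hq j
    set a := n * S.card with ha
    set M := n * (N - Q.card) - 2 * n ^ 2 with hM
    have h1 := Nat.choose_succ_right_eq a j
    have h2 := Nat.choose_succ_right_eq M j
    have h3 := Nat.add_one_mul_choose_eq (n * q + j) j
    have hpos : 0 < (j + 1) * (j + 1) := by positivity
    refine Nat.le_of_mul_le_mul_left ?_ hpos
    calc (j + 1) * (j + 1) * (a.choose (j + 1) * M.choose (j + 1) * gj n S Q 0)
        = (a.choose (j + 1) * (j + 1)) * (M.choose (j + 1) * (j + 1)) * gj n S Q 0 := by ring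
      _ = (a.choose j * (a - j)) * (M.choose j * (M - j)) * gj n S Q 0 := by rw [h1, h2]
      _ = ((a - j) * (M - j)) * (a.choose j * M.choose j * gj n S Q 0) := by ring
      _ ≤ ((a - j) * (M - j)) * ((n * q + j).choose j * gj n S Q j) := Nat.mul_le_mul_left _ ih
      _ = (n * q + j).choose j * ((a - j) * (M - j) * gj n S Q j) := by ring
      _ ≤ (n * q + j).choose j * ((j + 1) * (n * q + j + 1) * gj n S Q (j + 1)) :=
          Nat.mul_le_mul_left _ hs
      _ = (j + 1) * ((n * q + j + 1) * (n * q + j).choose j) * gj n S Q (j + 1) := by ring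
      _ = (j + 1) * ((n * q + j + 1).choose (j + 1) * (j + 1)) * gj n S Q (j + 1) := by rw [h3]
      _ = (j + 1) * (j + 1) * ((n * q + (j + 1)).choose (j + 1) * gj n S Q (j + 1)) := by
          rw [← add_assoc]; ring

theorem ex2_vand (a M : ℕ) :
    ∑ j ∈ range (a + 1), a.choose j * M.choose j = (a + M).choose a := by
  rw [Nat.add_choose_eq, Nat.sum_antidiagonal_eq_sum_range_succ_mk, ← Finset.sum_range_reflect]
  apply Finset.sum_congr rfl
  intro j hj
  rw [Finset.mem_range] at hj
  have h1 : a + 1 - 1 - j = a - j := by omega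
  have h2 : j ≤ a := by omega
  simp only [h1]
  rw [Nat.choose_symm h2]

theorem ex2_sum (n : ℕ) (S Q : Finset (Fin N)) (a : ℕ) :
    ∑ j ∈ range (a + 1), gj n S Q j ≤ (BReg N n).card := by
  unfold gj
  rw [← Finset.card_biUnion]
  · apply Finset.card_le_card
    intro E hE
    rw [Finset.mem_biUnion] at hE
    obtain ⟨j, -, hE⟩ := hE
    exact (Finset.mem_filter.mp hE).1
  · intro x _ y _ hxy
    change Disjoint _ _
    rw [Finset.disjoint_left]
    intro E h1 h2
    exact hxy ((Finset.mem_filter.mp h1).2.symm.trans (Finset.mem_filter.mp h2).2)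

theorem ex_bound (n : ℕ) (S Q : Finset (Fin N)) (q : ℕ) (hq : Q.card = S.card + q) :
    gj n S Q 0 * (n * N - n * q - 2 * n ^ 2).choose (n * S.card) ≤
      (n * (S.card + q)).choose (n * S.card) * (BReg N n).card := by
  have hQN : Q.card ≤ N := by
    have := Finset.card_le_univ Q
    rwa [Fintype.card_fin] at this
  set a := n * S.card with ha
  set M := n * (N - Q.card) - 2 * n ^ 2 with hM
  have hle : n * N - n * q - 2 * n ^ 2 ≤ a + M := by
    have h1 : n * (N - Q.card) + n * S.card + n * q = n * N := by
      rw [← Nat.mul_add, ← Nat.mul_add]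
      congr 1
      omega
    omega
  have h0 : gj n S Q 0 * (n * N - n * q - 2 * n ^ 2).choose a ≤ gj n S Q 0 * (a + M).choose a :=
    Nat.mul_le_mul_left _ (Nat.choose_le_choose _ hle)
  refine h0.trans ?_
  rw [← ex2_vand a M, Finset.mul_sum]
  calc ∑ j ∈ range (a + 1), gj n S Q 0 * (a.choose j * M.choose j)
      ≤ ∑ j ∈ range (a + 1), (n * (S.card + q)).choose a * gj n S Q j := by
        apply Finset.sum_le_sum
        intro j hj
        rw [Finset.mem_range] at hj
        have h1 := ex2_claim n S Q q hq j
        have h2 : (n * q + j).choose j ≤ (n * (S.card + q)).choose a := by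
          have e1 : (n * q + j).choose j = (n * q + j).choose (n * q) := by
            have := Nat.choose_symm_add (a := n * q) (b := j)
            exact this.symm
          have e2 : (n * (S.card + q)).choose a = (n * q + a).choose (n * q) := by
            have h3 : n * (S.card + q) = n * q + a := by rw [ha]; ring
            rw [h3]
            have := Nat.choose_symm_add (a := n * q) (b := a)
            exact this.symm
          rw [e1, e2]
          exact Nat.choose_le_choose _ (by omega)
        calc gj n S Q 0 * (a.choose j * M.choose j) = a.choose j * M.choose j * gj n S Q 0 := by ring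
          _ ≤ (n * q + j).choose j * gj n S Q j := h1
          _ ≤ (n * (S.card + q)).choose a * gj n S Q j := Nat.mul_le_mul_right _ h2
    _ = (n * (S.card + q)).choose a * ∑ j ∈ range (a + 1), gj n S Q j := by rw [Finset.mul_sum]
    _ ≤ (n * (S.card + q)).choose a * (BReg N n).card :=
        Nat.mul_le_mul_left _ (ex2_sum n S Q a)

end Pool.Agent.Lib.MP_c5b475_co.AA
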