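import Mathlib

set_option autoImplicit false

/-!
# Ex3b (30 min, only Mathlib)

`choose_shift`: induction on `c`: `C(N - i - 1, s) (N - i) = C(N - i, s) (N - i - s)` and
`4 (N - i - s) ≥ N - i` for `i < c`, as `2 s ≤ N`, `3 i ≤ N`.
`choose_up`: induction on `q`: `C(N, k + 1) (k + 1) = C(N, k) (N - k)` (`Nat.choose_succ_right_eq`),
so `C(N, s + q + 1) s ≤ C(N, s + q + 1) (s + q + 1) = C(N, s + q) (N - s - q) ≤ C(N, s + q) N`.
`pow_le`: `(N / s) ^ s ≤ C(N, s)`, in the form `N ^ s ≤ C(N, s) s ^ s` (Mathlib has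
`Nat.pow_le_choose`? else `C(N, s) s ! = N (N - 1) ..`, each factor `(N - i) / (s - i) ≥ N / s`; induction
on `s`: `C(N+1, s+1) (s+1) = (N+1) C(N, s)`).
-/

namespace Pool.Agent.Lib.MP_c5b475_co.AA

theorem Ex3b_step (M s : ℕ) (h : 4 * s ≤ 3 * (M + 1)) : (M + 1).choose s ≤ 4 * M.choose s := by
  have h1 := Nat.choose_mul_succ_eq M s
  have h2 : (M + 1).choose s * (M + 1) ≤ 4 * M.choose s * (M + 1) := by
    calc (M + 1).choose s * (M + 1) ≤ (M + 1).choose s * (4 * (M + 1 - s)) :=
          Nat.mul_le_mul_left _ (by omega)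
      _ = 4 * ((M + 1).choose s * (M + 1 - s)) := by ring
      _ = 4 * (M.choose s * (M + 1)) := by rw [h1]
      _ = _ := by ring
  exact Nat.le_of_mul_le_mul_right h2 (Nat.succ_pos _)

theorem choose_shift (c N s : ℕ) (h1 : 2 * s ≤ N) (h2 : 3 * c ≤ N) :
    N.choose s ≤ 4 ^ c * (N - c).choose s := by
  induction c with
  | zero => simp
  | succ c ih =>
    obtain ⟨M, hM⟩ : ∃ M, N - c = M + 1 := ⟨N - c - 1, by omega⟩
    have h3 : N - (c + 1) = M := by omega
    rw [h3]
    have h4 := ih (by omega)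
    rw [hM] at h4
    calc N.choose s ≤ 4 ^ c * (M + 1).choose s := h4
      _ ≤ 4 ^ c * (4 * M.choose s) := Nat.mul_le_mul_left _ (Ex3b_step M s (by omega))
      _ = _ := by rw [pow_succ, mul_assoc]

theorem choose_up (N s q : ℕ) : N.choose (s + q) * s ^ q ≤ N.choose s * N ^ q := by
  induction q with
  | zero => simp
  | succ q ih =>
    have h1 := Nat.choose_succ_right_eq N (s + q)
    have h2 : N.choose (s + q + 1) * s ≤ N.choose (s + q) * N := by
      calc N.choose (s + q + 1) * s ≤ N.choose (s + q + 1) * (s + q + 1) :=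
            Nat.mul_le_mul_left _ (by omega)
        _ = N.choose (s + q) * (N - (s + q)) := h1
        _ ≤ _ := Nat.mul_le_mul_left _ (Nat.sub_le _ _)
    calc N.choose (s + (q + 1)) * s ^ (q + 1) = N.choose (s + q + 1) * s * s ^ q := by
          rw [pow_succ]; ring_nf
      _ ≤ N.choose (s + q) * N * s ^ q := Nat.mul_le_mul_right _ h2
      _ = N.choose (s + q) * s ^ q * N := by ring
      _ ≤ N.choose s * N ^ q * N := Nat.mul_le_mul_right _ ih
      _ = _ := by rw [pow_succ]; ring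

theorem pow_le_choose_mul (N s : ℕ) (h : s ≤ N) : N ^ s ≤ N.choose s * s ^ s := by
  induction s generalizing N with
  | zero => simp
  | succ s ih =>
    obtain ⟨M, rfl⟩ : ∃ M, N = M + 1 := ⟨N - 1, by omega⟩
    have hs : s ≤ M := by omega
    have h1 := Nat.add_one_mul_choose_eq M s
    have h2 : (M + 1) ^ s ≤ M.choose s * (s + 1) ^ s := by
      rcases Nat.eq_zero_or_pos s with h0 | h0
      · subst h0; simp
      · have h3 : (M + 1) ^ s * s ^ s ≤ M.choose s * (s + 1) ^ s * s ^ s := by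
          calc (M + 1) ^ s * s ^ s = ((M + 1) * s) ^ s := (mul_pow _ _ _).symm
            _ ≤ (M * (s + 1)) ^ s := Nat.pow_le_pow_left (by nlinarith) s
            _ = M ^ s * (s + 1) ^ s := mul_pow _ _ _
            _ ≤ M.choose s * s ^ s * (s + 1) ^ s := Nat.mul_le_mul_right _ (ih M hs)
            _ = _ := by ring
        exact Nat.le_of_mul_le_mul_right h3 (pow_pos h0 s)
    calc (M + 1) ^ (s + 1) = (M + 1) * (M + 1) ^ s := by rw [pow_succ, mul_comm]
      _ ≤ (M + 1) * (M.choose s * (s + 1) ^ s) := Nat.mul_le_mul_left _ h2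
      _ = (M + 1) * M.choose s * (s + 1) ^ s := by ring
      _ = (M + 1).choose (s + 1) * (s + 1) * (s + 1) ^ s := by rw [h1]
      _ = _ := by rw [pow_succ]; ring

end Pool.Agent.Lib.MP_c5b475_co.AA
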