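import Pool.Agent.Lib.MP_c5b475_co.AA.Ex3a
import Pool.Agent.Lib.MP_c5b475_co.AA.Ex3b

set_option autoImplicit false

/-!
# Ex3 (40 min): one term of the sum

`c := q + 2 n`, `n N - n q - 2 n ^ 2 = n (N - c)`; `N0 = 3 c + 1`.
`C(n (N-c), n s) ≥ C(N-c, s)^n ≥ (C(N, s) / 4^c)^n` (`choose_mul_ge`, `choose_shift`);
`C(N, s + q) ≤ C(N, s) (N/s)^q` (`choose_up`); `C(n(s+q), ns) = C(n(s+q), nq) ≤ (n(s+q))^(nq)`
(`Nat.choose_symm_of_eq_add`, `Nat.choose_le_pow`).  So with `X = C(N, s)` it is enough that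
`X^2 (N/s)^q N ≤ s (1/2)^(s-q-1) X^n`; as `n ≥ 3`, `X ≥ 1` and `X ≥ (N/s)^s` (`pow_le_choose_mul`) it is enough
that `(N/s)^(q+1) ≤ (1/2)^(s-q-1) (N/s)^s`, true since `N / s ≥ 2`.
-/

namespace Pool.Agent.Lib.MP_c5b475_co.AA

theorem ex_term (n q : ℕ) (hn : 3 ≤ n) : ∃ N0, ∀ N, N0 ≤ N → ∀ s, q + 1 ≤ s → 2 * s ≤ N →
    (N.choose s : ℝ) * N.choose (s + q) * (n * (s + q)).choose (n * s) * N ≤
      (4 : ℝ) ^ ((q + 2 * n) * n) * ((n * (s + q) : ℕ) : ℝ) ^ (n * q) * s * (1 / 2) ^ (s - q - 1) *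
        (n * N - n * q - 2 * n ^ 2).choose (n * s) := by
  refine ⟨3 * (q + 2 * n) + 1, fun N hN s hs hsN => ?_⟩
  have eD : n * N - n * q - 2 * n ^ 2 = n * (N - (q + 2 * n)) := by
    rw [Nat.mul_sub, Nat.sub_sub]
    congr 1
    ring
  rw [eD]
  set D := (n * (N - (q + 2 * n))).choose (n * s) with hD
  set X := N.choose s with hX
  have hs0 : (0 : ℝ) < s := by exact_mod_cast (show 0 < s by omega)
  have hX1 : 1 ≤ X := Nat.choose_pos (by omega)
  -- the four facts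
  have f1 : (X : ℝ) ^ n ≤ 4 ^ ((q + 2 * n) * n) * D := by
    have h1 := choose_shift (q + 2 * n) N s hsN (by omega)
    have h2 := choose_mul_ge n (N - (q + 2 * n)) s
    have h3 : X ^ n ≤ 4 ^ ((q + 2 * n) * n) * D := by
      calc X ^ n ≤ (4 ^ (q + 2 * n) * (N - (q + 2 * n)).choose s) ^ n := Nat.pow_le_pow_left h1 n
        _ = 4 ^ ((q + 2 * n) * n) * (N - (q + 2 * n)).choose s ^ n := by rw [mul_pow, ← pow_mul]
        _ ≤ _ := Nat.mul_le_mul_left _ h2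
    exact_mod_cast h3
  have f2 : (N.choose (s + q) : ℝ) ≤ X * ((N : ℝ) / s) ^ q := by
    rw [div_pow, ← mul_div_assoc, le_div_iff₀ (by positivity)]
    exact_mod_cast choose_up N s q
  have f3 : (((n * (s + q)).choose (n * s) : ℕ) : ℝ) ≤ ((n * (s + q) : ℕ) : ℝ) ^ (n * q) := by
    have h1 : (n * (s + q)).choose (n * s) = (n * (s + q)).choose (n * q) :=
      Nat.choose_symm_of_eq_add (by ring)
    rw [h1]
    exact_mod_cast Nat.choose_le_pow _ _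
  have f4 : ((N : ℝ) / s) ^ s ≤ X := by
    rw [div_pow, div_le_iff₀ (by positivity)]
    exact_mod_cast pow_le_choose_mul N s (by omega)
  set t : ℝ := (N : ℝ) / s with ht
  have ht2 : 2 ≤ t := by
    rw [ht, le_div_iff₀ hs0]
    exact_mod_cast hsN
  have hNt : (N : ℝ) = s * t := by rw [ht]; field_simp
  have f5 : t ^ (q + 1) ≤ (1 / 2) ^ (s - q - 1) * X := by
    have e : t ^ s = t ^ (s - q - 1) * t ^ (q + 1) := by
      rw [← pow_add]; congr 1; omega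
    calc t ^ (q + 1) = 1 * t ^ (q + 1) := (one_mul _).symm
      _ ≤ (1 / 2 * t) ^ (s - q - 1) * t ^ (q + 1) := by
          refine mul_le_mul_of_nonneg_right ?_ (by positivity)
          exact one_le_pow₀ (by linarith)
      _ = (1 / 2) ^ (s - q - 1) * t ^ s := by rw [e, mul_pow, mul_assoc]
      _ ≤ _ := by gcongr
  have hX1' : (1 : ℝ) ≤ X := by exact_mod_cast hX1
  have ht0 : 0 ≤ t := by linarith
  set P : ℝ := ((n * (s + q) : ℕ) : ℝ) ^ (n * q) with hP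
  have hP0 : 0 ≤ P := by positivity
  calc (X : ℝ) * N.choose (s + q) * (n * (s + q)).choose (n * s) * N
      ≤ X * (X * t ^ q) * P * N := by gcongr
    _ = X ^ 2 * t ^ (q + 1) * P * s := by rw [hNt]; ring
    _ ≤ X ^ 2 * ((1 / 2) ^ (s - q - 1) * X) * P * s := by gcongr
    _ = P * s * (1 / 2) ^ (s - q - 1) * (X : ℝ) ^ 3 := by ring
    _ ≤ P * s * (1 / 2) ^ (s - q - 1) * (X : ℝ) ^ n := by gcongr
    _ ≤ P * s * (1 / 2) ^ (s - q - 1) * (4 ^ ((q + 2 * n) * n) * D) := by gcongr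
    _ = _ := by ring

end Pool.Agent.Lib.MP_c5b475_co.AA
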