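import Mathlib

set_option autoImplicit false

/-!
# Ex3a (20 min, only Mathlib)

Induction on `n`: `C(n M + M, n s + s) ≥ C(n M, n s) C(M, s)` is one term of Vandermonde
(`Nat.add_choose_eq`, `Finset.single_le_sum`).
-/

namespace Pool.Agent.Lib.MP_c5b475_co.AA

theorem choose_mul_ge (n M s : ℕ) : M.choose s ^ n ≤ (n * M).choose (n * s) := by
  induction n with
  | zero => simp
  | succ n ih =>
    rw [pow_succ, Nat.add_mul, Nat.add_mul, Nat.one_mul, Nat.one_mul, Nat.add_choose_eq]
    have h1 : (n * M).choose (n * s) * M.choose s ≤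
        ∑ ij ∈ Finset.HasAntidiagonal.antidiagonal (n * s + s), (n * M).choose ij.1 * M.choose ij.2 := by
      have h2 : ((n * s, s) : ℕ × ℕ) ∈ Finset.HasAntidiagonal.antidiagonal (n * s + s) := by
        rw [Finset.HasAntidiagonal.mem_antidiagonal]
      exact Finset.single_le_sum (f := fun ij : ℕ × ℕ => (n * M).choose ij.1 * M.choose ij.2)
        (fun _ _ => Nat.zero_le _) h2
    exact (Nat.mul_le_mul_right _ ih).trans h1

end Pool.Agent.Lib.MP_c5b475_co.AA
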