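import Pool.Agent.Lib.MP_c5b475_co.AA.Ex4a
import Pool.Agent.Lib.MP_c5b475_co.AA.Ex3

set_option autoImplicit false

/-!
# Ex4 (40 min): almost all graphs expand

By `ex_term` every term of the sum in `ex_union` is at most `u s / N`,
`u s = 4^((q+2n) n) (n(s+q))^(nq) s (1/2)^(s-q-1)`, and `u` is summable (polynomial times geometric:
`(n (s+q))^(nq) s ≤ (n (s + q + 1))^(nq+1)`, shift the index by `q + 1`,
`summable_pow_mul_geometric_of_norm_lt_one`), so the sum is at most `(∑' u) / N ≤ ε` for large `N`.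
The hypothesis `hN'` of `ex_union`: `s ≤ N / 2` and `n N / 2 ≥ n q + 2 n ^ 2` for `N ≥ 2 q + 4 n`.
-/

namespace Pool.Agent.Lib.MP_c5b475_co.AA

open Finset

/-- The summable majorant. -/
noncomputable def Ex4_v (n q : ℕ) (s : ℕ) : ℝ :=
  (4 : ℝ) ^ ((q + 2 * n) * n) * (n : ℝ) ^ (n * q) * 2 ^ (2 * q + 1) *
    (((s + q : ℕ) : ℝ) ^ (n * q + 1) * (1 / 2) ^ (s + q))

theorem Ex4_summable (n q : ℕ) : Summable (Ex4_v n q) := by
  have h : Summable fun m : ℕ => (m : ℝ) ^ (n * q + 1) * (1 / 2 : ℝ) ^ m :=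
    summable_pow_mul_geometric_of_norm_lt_one (n * q + 1) (by norm_num)
  exact ((summable_nat_add_iff q).2 h).mul_left _

theorem Ex4_nonneg (n q s : ℕ) : 0 ≤ Ex4_v n q s := by
  unfold Ex4_v; positivity

theorem Ex4_le (n q s : ℕ) (hs : q + 1 ≤ s) :
    (4 : ℝ) ^ ((q + 2 * n) * n) * ((n * (s + q) : ℕ) : ℝ) ^ (n * q) * s * (1 / 2) ^ (s - q - 1) ≤
      Ex4_v n q s := by
  have e1 : (1 / 2 : ℝ) ^ (s - q - 1) = 2 ^ (2 * q + 1) * (1 / 2) ^ (s + q) := by
    have : s + q = (s - q - 1) + (2 * q + 1) := by omega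
    rw [this, pow_add (1 / 2 : ℝ), mul_left_comm, ← mul_pow]
    norm_num
  rw [e1, Ex4_v, Nat.cast_mul, mul_pow, pow_succ ((s + q : ℕ) : ℝ)]
  have h2 : (s : ℝ) ≤ ((s + q : ℕ) : ℝ) := by exact_mod_cast Nat.le_add_right s q
  calc (4 : ℝ) ^ ((q + 2 * n) * n) * ((n : ℝ) ^ (n * q) * ((s + q : ℕ) : ℝ) ^ (n * q)) * s *
        (2 ^ (2 * q + 1) * (1 / 2) ^ (s + q))
      = (4 : ℝ) ^ ((q + 2 * n) * n) * (n : ℝ) ^ (n * q) * 2 ^ (2 * q + 1) *
        (((s + q : ℕ) : ℝ) ^ (n * q) * s * (1 / 2) ^ (s + q)) := by ring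
    _ ≤ _ := by gcongr

open scoped Classical in
theorem p_ex (n q : ℕ) (hn : 3 ≤ n) (ε : ℝ) (hε : 0 < ε) : ∃ N0, ∀ N, N0 ≤ N →
    (((BReg N n).filter fun E => ¬ Expd E (q + 1) (q + 1)).card : ℝ) ≤ ε * (BReg N n).card := by
  obtain ⟨N1, h1⟩ := ex_term n q hn
  obtain ⟨N2, h2⟩ := exists_nat_ge ((∑' s, Ex4_v n q s) / ε)
  refine ⟨N1 + (N2 + 1) + (2 * q + 4 * n), fun N hN => ?_⟩
  have hN0 : (0 : ℝ) < N := by exact_mod_cast (show 0 < N by omega)
  have key : ∀ s, 2 * s ≤ N → n * s ≤ n * N - n * q - 2 * n ^ 2 := by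
    intro s hs
    have h3 : s + q + 2 * n ≤ N := by omega
    have h4 : n * (s + q + 2 * n) ≤ n * N := Nat.mul_le_mul_left n h3
    have h5 : n * (s + q + 2 * n) = n * s + n * q + 2 * n ^ 2 := by ring
    omega
  refine (ex_union n q N (by omega) key).trans ?_
  refine mul_le_mul_of_nonneg_right ?_ (Nat.cast_nonneg _)
  calc ∑ s ∈ (range (N + 1)).filter (fun s => q + 1 < s ∧ 2 * s ≤ N),
        (N.choose s : ℝ) * N.choose (s + q) * (n * (s + q)).choose (n * s) /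
          (n * N - n * q - 2 * n ^ 2).choose (n * s)
      ≤ ∑ s ∈ (range (N + 1)).filter (fun s => q + 1 < s ∧ 2 * s ≤ N), Ex4_v n q s / N := by
        refine sum_le_sum fun s hs => ?_
        rw [mem_filter] at hs
        have hd : (0 : ℝ) < (n * N - n * q - 2 * n ^ 2).choose (n * s) := by
          exact_mod_cast Nat.choose_pos (key s hs.2.2)
        rw [div_le_div_iff₀ hd hN0]
        refine (h1 N (by omega) s hs.2.1.le hs.2.2).trans ?_
        exact mul_le_mul_of_nonneg_right (Ex4_le n q s hs.2.1.le) hd.le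
    _ = (∑ s ∈ (range (N + 1)).filter (fun s => q + 1 < s ∧ 2 * s ≤ N), Ex4_v n q s) / N := by
        rw [sum_div]
    _ ≤ (∑' s, Ex4_v n q s) / N := by
        refine div_le_div_of_nonneg_right ?_ hN0.le
        exact (Ex4_summable n q).sum_le_tsum _ fun i _ => Ex4_nonneg n q i
    _ ≤ ε := by
        rw [div_le_iff₀ hN0]
        rw [div_le_iff₀ hε] at h2
        have h6 : (N2 : ℝ) ≤ N := by exact_mod_cast (show N2 ≤ N by omega)
        nlinarith

end Pool.Agent.Lib.MP_c5b475_co.AA
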