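import Pool.Agent.Lib.MP_c5b475_co.AA.Ex2

set_option autoImplicit false

/-!
# Ex4a (35 min): union bound

If `Expd E (q + 1) (q + 1)` fails there is `S`, `q + 2 ≤ |S|`, `2 |S| ≤ N`, `|nbr E S| ≤ |S| + q`; choose
`Q ⊇ nbr E S` with `|Q| = |S| + q` (`2 q ≤ N`, `Finset.exists_superset_card_eq`): `cr E S Q = 0`.
So the bad graphs are in the union over `s`, `|S| = s`, `|Q| = s + q` of `{E : cr E S Q = 0}`
(`Finset.card_biUnion_le`, `Finset.card_powersetCard`, `ex_bound` divided by the choose, which is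
positive).
-/

namespace Pool.Agent.Lib.MP_c5b475_co.AA

open Finset

open scoped Classical in
theorem Ex4a_card (n q N : ℕ) (hN : 2 * q ≤ N) :
    ((BReg N n).filter fun E => ¬ Expd E (q + 1) (q + 1)).card ≤
      ∑ s ∈ (range (N + 1)).filter (fun s => q + 1 < s ∧ 2 * s ≤ N),
        ∑ S ∈ powersetCard s (univ : Finset (Fin N)),
          ∑ Q ∈ powersetCard (s + q) (univ : Finset (Fin N)), gj n S Q 0 := by
  have hsub : ((BReg N n).filter fun E => ¬ Expd E (q + 1) (q + 1)) ⊆
      ((range (N + 1)).filter (fun s => q + 1 < s ∧ 2 * s ≤ N)).biUnion fun s =>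
        (powersetCard s (univ : Finset (Fin N))).biUnion fun S =>
          (powersetCard (s + q) (univ : Finset (Fin N))).biUnion fun Q =>
            (BReg N n).filter fun E => cr E S Q = 0 := by
    intro E hE
    rw [mem_filter] at hE
    obtain ⟨hE, hex⟩ := hE
    unfold Expd at hex
    push Not at hex
    obtain ⟨S, hS, hSN, hnb⟩ := hex
    obtain ⟨Q, hQ, hQc⟩ := exists_superset_card_eq (s := nbr E S) (n := S.card + q) (by omega)
      (by rw [Fintype.card_fin]; omega)
    rw [mem_biUnion]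
    refine ⟨S.card, ?_, ?_⟩
    · rw [mem_filter, mem_range]
      exact ⟨by omega, hS, hSN⟩
    rw [mem_biUnion]
    refine ⟨S, mem_powersetCard.mpr ⟨subset_univ _, rfl⟩, ?_⟩
    rw [mem_biUnion]
    refine ⟨Q, mem_powersetCard.mpr ⟨subset_univ _, hQc⟩, ?_⟩
    rw [mem_filter]
    refine ⟨hE, ?_⟩
    unfold cr
    rw [card_eq_zero, filter_eq_empty_iff]
    rintro ⟨a, b⟩ hab ⟨h1, h2⟩
    apply h2
    apply hQ
    unfold nbr
    rw [mem_filter]
    exact ⟨mem_univ _, a, h1, hab⟩
  refine (card_le_card hsub).trans (card_biUnion_le.trans (sum_le_sum fun s _ =>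
    card_biUnion_le.trans (sum_le_sum fun S _ => card_biUnion_le.trans (le_of_eq ?_))))
  rfl

open scoped Classical in
theorem ex_union (n q N : ℕ) (hN : 2 * q ≤ N) (hN' : ∀ s, 2 * s ≤ N → n * s ≤ n * N - n * q - 2 * n ^ 2) :
    (((BReg N n).filter fun E => ¬ Expd E (q + 1) (q + 1)).card : ℝ) ≤
      (∑ s ∈ (range (N + 1)).filter (fun s => q + 1 < s ∧ 2 * s ≤ N),
        (N.choose s : ℝ) * N.choose (s + q) * (n * (s + q)).choose (n * s) /
          (n * N - n * q - 2 * n ^ 2).choose (n * s)) * (BReg N n).card := by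
  set R := (range (N + 1)).filter (fun s => q + 1 < s ∧ 2 * s ≤ N) with hR
  have h1 := Ex4a_card n q N hN
  have h2 : (((BReg N n).filter fun E => ¬ Expd E (q + 1) (q + 1)).card : ℝ) ≤
      ∑ s ∈ R, ∑ S ∈ powersetCard s (univ : Finset (Fin N)),
        ∑ Q ∈ powersetCard (s + q) (univ : Finset (Fin N)), (gj n S Q 0 : ℝ) := by
    exact_mod_cast h1
  refine h2.trans ?_
  rw [sum_mul]
  refine sum_le_sum fun s hs => ?_
  rw [hR, mem_filter] at hs
  have hD : (0 : ℝ) < (n * N - n * q - 2 * n ^ 2).choose (n * s) := by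
    exact_mod_cast Nat.choose_pos (hN' s hs.2.2)
  have h3 : ∀ S ∈ powersetCard s (univ : Finset (Fin N)),
      ∑ Q ∈ powersetCard (s + q) (univ : Finset (Fin N)), (gj n S Q 0 : ℝ) ≤
        N.choose (s + q) * ((n * (s + q)).choose (n * s) /
          (n * N - n * q - 2 * n ^ 2).choose (n * s) * (BReg N n).card) := by
    intro S hS
    rw [mem_powersetCard] at hS
    have h4 : ∀ Q ∈ powersetCard (s + q) (univ : Finset (Fin N)), (gj n S Q 0 : ℝ) ≤
        (n * (s + q)).choose (n * s) / (n * N - n * q - 2 * n ^ 2).choose (n * s) *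
          (BReg N n).card := by
      intro Q hQ
      rw [mem_powersetCard] at hQ
      have h5 := ex_bound n S Q q (by rw [hQ.2, hS.2])
      rw [hS.2] at h5
      have h6 : (gj n S Q 0 : ℝ) * (n * N - n * q - 2 * n ^ 2).choose (n * s) ≤
          (n * (s + q)).choose (n * s) * (BReg N n).card := by exact_mod_cast h5
      rw [div_mul_eq_mul_div, le_div_iff₀ hD]
      exact h6
    refine (sum_le_card_nsmul _ _ _ h4).trans (le_of_eq ?_)
    rw [nsmul_eq_mul, card_powersetCard, card_univ, Fintype.card_fin]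
  refine (sum_le_card_nsmul _ _ _ h3).trans (le_of_eq ?_)
  rw [nsmul_eq_mul, card_powersetCard, card_univ, Fintype.card_fin]
  ring

end Pool.Agent.Lib.MP_c5b475_co.AA
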