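import Pool.Agent.Lib.MP_c5b475_co.AA.Ex4

set_option autoImplicit false

/-!
# ExT (25 min): exchange of the classes

`tr` is an involution of `BReg N n`.
-/

namespace Pool.Agent.Lib.MP_c5b475_co.AA

open Finset

variable {N : ℕ}

theorem mem_tr {E : Finset (Fin N × Fin N)} {a b : Fin N} : (b, a) ∈ tr E ↔ (a, b) ∈ E := by
  simp [tr]

theorem tr_tr (E : Finset (Fin N × Fin N)) : tr (tr E) = E := by
  ext ⟨a, b⟩
  simp [tr]

theorem exT_row (E : Finset (Fin N × Fin N)) (a : Fin N) :
    ((tr E).filter fun p => p.1 = a).card = (E.filter fun p => p.2 = a).card := by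
  unfold tr
  rw [Finset.filter_image, Finset.card_image_of_injective _ Prod.swap_injective]
  rfl

theorem exT_col (E : Finset (Fin N × Fin N)) (a : Fin N) :
    ((tr E).filter fun p => p.2 = a).card = (E.filter fun p => p.1 = a).card := by
  unfold tr
  rw [Finset.filter_image, Finset.card_image_of_injective _ Prod.swap_injective]
  rfl

theorem tr_mem {n : ℕ} {E : Finset (Fin N × Fin N)} : tr E ∈ BReg N n ↔ E ∈ BReg N n := by
  unfold BReg
  simp only [Finset.mem_filter, Finset.mem_univ, true_and, exT_row, exT_col]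
  exact And.comm

open scoped Classical in
theorem p_ex_tr (n q : ℕ) (hn : 3 ≤ n) (ε : ℝ) (hε : 0 < ε) : ∃ N0, ∀ N, N0 ≤ N →
    (((BReg N n).filter fun E => ¬ Expd (tr E) (q + 1) (q + 1)).card : ℝ) ≤
      ε * (BReg N n).card := by
  obtain ⟨N0, h⟩ := p_ex n q hn ε hε
  refine ⟨N0, fun N hN => ?_⟩
  have h1 := h N hN
  have h2 : ((BReg N n).filter fun E => ¬ Expd (tr E) (q + 1) (q + 1)).card ≤
      ((BReg N n).filter fun E => ¬ Expd E (q + 1) (q + 1)).card := by
    apply Finset.card_le_card_of_injOn tr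
    · intro E hE
      rw [Finset.mem_coe, Finset.mem_filter] at hE ⊢
      exact ⟨tr_mem.mpr hE.1, hE.2⟩
    · intro E _ E' _ hEE
      have h3 := congrArg tr hEE
      rwa [tr_tr, tr_tr] at h3
  exact le_trans (by exact_mod_cast h2) h1

end Pool.Agent.Lib.MP_c5b475_co.AA
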