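import Pool.Agent.Lib.MP_c5b475_co.AA.Defs

set_option autoImplicit false

/-!
# HA (40 min): hosts as sets of pairs

`E ↦ gr E` is a bijection from the elements of `BReg N n` (with the property) onto the hosts; inverse:
`G ↦ {(a, b) : G.Adj (inl a) (inr b)}`.  `Nat.card` of the subtype = card of the filter, e.g. by
`Nat.card_congr` with `{E // E ∈ filter ..}` and `Nat.card_eq_fintype_card`, `Fintype.card_coe`.
-/

namespace Pool.Agent.Lib.MP_c5b475_co.AA

open Finset

theorem HA_adj_lr {N : ℕ} {E : Finset (Fin N × Fin N)} {a b : Fin N} :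
    (gr E).Adj (Sum.inl a) (Sum.inr b) ↔ (a, b) ∈ E := by
  constructor
  · rintro ⟨a', b', h1, ⟨h2, h3⟩ | ⟨h2, h3⟩⟩
    · rw [Sum.inl.injEq] at h2
      rw [Sum.inr.injEq] at h3
      rw [h2, h3]; exact h1
    · exact absurd h2 (by simp)
  · intro h
    exact ⟨a, b, h, Or.inl ⟨rfl, rfl⟩⟩

theorem HA_adj_rl {N : ℕ} {E : Finset (Fin N × Fin N)} {a b : Fin N} :
    (gr E).Adj (Sum.inr b) (Sum.inl a) ↔ (a, b) ∈ E := by
  rw [SimpleGraph.adj_comm]
  exact HA_adj_lr

theorem HA_adj_ll {N : ℕ} {E : Finset (Fin N × Fin N)} {a b : Fin N} :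
    ¬ (gr E).Adj (Sum.inl a) (Sum.inl b) := by
  rintro ⟨a', b', h1, ⟨h2, h3⟩ | ⟨h2, h3⟩⟩
  · exact absurd h3 (by simp)
  · exact absurd h2 (by simp)

theorem HA_adj_rr {N : ℕ} {E : Finset (Fin N × Fin N)} {a b : Fin N} :
    ¬ (gr E).Adj (Sum.inr a) (Sum.inr b) := by
  rintro ⟨a', b', h1, ⟨h2, h3⟩ | ⟨h2, h3⟩⟩
  · exact absurd h2 (by simp)
  · exact absurd h3 (by simp)

theorem HA_deg_l {N : ℕ} (E : Finset (Fin N × Fin N)) (a : Fin N) :
    ((gr E).neighborSet (Sum.inl a)).ncard = (E.filter fun p => p.1 = a).card := by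
  have h : (gr E).neighborSet (Sum.inl a) =
      (((E.filter fun p => p.1 = a).image fun p => (Sum.inr p.2 : Fin N ⊕ Fin N) :
        Finset (Fin N ⊕ Fin N)) : Set (Fin N ⊕ Fin N)) := by
    ext v
    rw [SimpleGraph.mem_neighborSet, Finset.mem_coe, Finset.mem_image]
    rcases v with v | v
    · constructor
      · intro h; exact absurd h HA_adj_ll
      · rintro ⟨p, _, hp⟩
        exact absurd hp (by simp)
    · rw [HA_adj_lr]
      constructor
      · intro h
        exact ⟨(a, v), Finset.mem_filter.2 ⟨h, rfl⟩, rfl⟩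
      · rintro ⟨⟨p1, p2⟩, hp, hp2⟩
        rw [Finset.mem_filter] at hp
        obtain ⟨hp, hp1⟩ := hp
        rw [Sum.inr.injEq] at hp2
        dsimp only at hp1 hp2
        rw [← hp1, ← hp2]
        exact hp
  rw [h, Set.ncard_coe_finset, Finset.card_image_of_injOn]
  rintro ⟨p1, p2⟩ hp ⟨q1, q2⟩ hq hpq
  have h1 := (Finset.mem_filter.1 (Finset.mem_coe.1 hp)).2
  have h2 := (Finset.mem_filter.1 (Finset.mem_coe.1 hq)).2
  have h3 := Sum.inr.inj hpq
  dsimp only at h1 h2 h3
  rw [h1, h2, h3]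

theorem HA_deg_r {N : ℕ} (E : Finset (Fin N × Fin N)) (b : Fin N) :
    ((gr E).neighborSet (Sum.inr b)).ncard = (E.filter fun p => p.2 = b).card := by
  have h : (gr E).neighborSet (Sum.inr b) =
      (((E.filter fun p => p.2 = b).image fun p => (Sum.inl p.1 : Fin N ⊕ Fin N) :
        Finset (Fin N ⊕ Fin N)) : Set (Fin N ⊕ Fin N)) := by
    ext v
    rw [SimpleGraph.mem_neighborSet, Finset.mem_coe, Finset.mem_image]
    rcases v with v | v
    · rw [HA_adj_rl]
      constructor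
      · intro h
        exact ⟨(v, b), Finset.mem_filter.2 ⟨h, rfl⟩, rfl⟩
      · rintro ⟨⟨p1, p2⟩, hp, hp2⟩
        rw [Finset.mem_filter] at hp
        obtain ⟨hp, hp1⟩ := hp
        rw [Sum.inl.injEq] at hp2
        dsimp only at hp1 hp2
        rw [← hp1, ← hp2]
        exact hp
    · constructor
      · intro h; exact absurd h HA_adj_rr
      · rintro ⟨p, _, hp⟩
        exact absurd hp (by simp)
  rw [h, Set.ncard_coe_finset, Finset.card_image_of_injOn]
  rintro ⟨p1, p2⟩ hp ⟨q1, q2⟩ hq hpq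
  have h1 := (Finset.mem_filter.1 (Finset.mem_coe.1 hp)).2
  have h2 := (Finset.mem_filter.1 (Finset.mem_coe.1 hq)).2
  have h3 := Sum.inl.inj hpq
  dsimp only at h1 h2 h3
  rw [h1, h2, h3]

theorem HA_host {N n : ℕ} {E : Finset (Fin N × Fin N)} :
    IsHost N n (gr E) ↔ E ∈ BReg N n := by
  unfold IsHost BReg
  rw [Finset.mem_filter]
  constructor
  · rintro ⟨_, h⟩
    refine ⟨Finset.mem_univ _, fun a => ?_, fun b => ?_⟩
    · rw [← HA_deg_l]; exact h _
    · rw [← HA_deg_r]; exact h _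
  · rintro ⟨_, h1, h2⟩
    refine ⟨?_, ?_⟩
    · rintro x y ⟨a, b, _, ⟨hx, hy⟩ | ⟨hx, hy⟩⟩
      · rw [hx, hy, completeBipartiteGraph_adj]; simp
      · rw [hx, hy, completeBipartiteGraph_adj]; simp
    · rintro (v | v)
      · rw [HA_deg_l]; exact h1 v
      · rw [HA_deg_r]; exact h2 v

open scoped Classical in
/-- the pairs of a graph -/
noncomputable def HA_prs {N : ℕ} (G : SimpleGraph (Fin N ⊕ Fin N)) : Finset (Fin N × Fin N) :=
  univ.filter fun p => G.Adj (Sum.inl p.1) (Sum.inr p.2)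

theorem HA_mem_prs {N : ℕ} {G : SimpleGraph (Fin N ⊕ Fin N)} {a b : Fin N} :
    (a, b) ∈ HA_prs G ↔ G.Adj (Sum.inl a) (Sum.inr b) := by
  simp [HA_prs]

theorem HA_prs_gr {N : ℕ} (E : Finset (Fin N × Fin N)) : HA_prs (gr E) = E := by
  ext ⟨a, b⟩
  rw [HA_mem_prs, HA_adj_lr]

theorem HA_gr_prs {N : ℕ} {G : SimpleGraph (Fin N ⊕ Fin N)}
    (h : G ≤ completeBipartiteGraph (Fin N) (Fin N)) : gr (HA_prs G) = G := by
  ext x y
  rcases x with x | x <;> rcases y with y | y
  · constructor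
    · intro h1; exact absurd h1 HA_adj_ll
    · intro h1
      have h2 := h h1
      rw [completeBipartiteGraph_adj] at h2
      simp at h2
  · rw [HA_adj_lr, HA_mem_prs]
  · rw [HA_adj_rl, HA_mem_prs, SimpleGraph.adj_comm]
  · constructor
    · intro h1; exact absurd h1 HA_adj_rr
    · intro h1
      have h2 := h h1
      rw [completeBipartiteGraph_adj] at h2
      simp at h2

open scoped Classical in
theorem card_host (N n : ℕ) (P : SimpleGraph (Fin N ⊕ Fin N) → Prop) :
    Nat.card {G : SimpleGraph (Fin N ⊕ Fin N) // IsHost N n G ∧ P G} =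
      ((BReg N n).filter fun E => P (gr E)).card := by
  rw [Nat.card_congr (β := {E // E ∈ (BReg N n).filter fun E => P (gr E)})
    { toFun := fun G => ⟨HA_prs G.1, by
        rw [Finset.mem_filter, ← HA_host, HA_gr_prs G.2.1.1]
        exact G.2⟩
      invFun := fun E => ⟨gr E.1, by
        have h := E.2
        rw [Finset.mem_filter, ← HA_host] at h
        exact h⟩
      left_inv := fun G => Subtype.ext (HA_gr_prs G.2.1.1)
      right_inv := fun E => Subtype.ext (HA_prs_gr E.1) }]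
  rw [Nat.card_eq_fintype_card, Fintype.card_coe]

end Pool.Agent.Lib.MP_c5b475_co.AA
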