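import Pool.Agent.Lib.MP_c5b475_co.AA.Defs

set_option autoImplicit false

/-!
# HB (30 min): existence of hosts

For `n ≤ N` the pairs `(a, b)` with `(b - a).val < n` (in `Fin N`, `N > 0`; if `N = 0` then `n = 0`, `E = ∅`)
form an `n`-regular graph: row `a`: `b = a + i`, `i < n`; column `b`: `a = b - i`.
-/

namespace Pool.Agent.Lib.MP_c5b475_co.AA

open Finset

theorem hB_card {N n : ℕ} (h : n ≤ N) :
    ((univ : Finset (Fin N)).filter fun x => x.val < n).card = n := by
  have h1 : ((univ : Finset (Fin N)).filter fun x => x.val < n) =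
      (univ : Finset (Fin n)).map (Fin.castLEEmb h) := by
    ext x
    simp only [mem_filter, mem_univ, true_and, mem_map]
    constructor
    · intro hx
      exact ⟨⟨x.val, hx⟩, by ext; simp⟩
    · rintro ⟨y, rfl⟩
      simp
  rw [h1, card_map, card_univ, Fintype.card_fin]

theorem breg_nonempty (N n : ℕ) (h : n ≤ N) : (BReg N n).Nonempty := by
  rcases N with _ | N
  · have hn : n = 0 := by omega
    subst hn
    refine ⟨∅, ?_⟩
    unfold BReg
    rw [mem_filter]
    exact ⟨mem_univ _, fun a => a.elim0, fun b => b.elim0⟩
  · refine ⟨univ.filter fun p : Fin (N + 1) × Fin (N + 1) => (p.2 - p.1).val < n, ?_⟩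
    unfold BReg
    rw [mem_filter]
    refine ⟨mem_univ _, fun a => ?_, fun b => ?_⟩
    · have h1 : ((univ.filter fun p : Fin (N + 1) × Fin (N + 1) => (p.2 - p.1).val < n).filter
          fun p => p.1 = a) =
          ((univ : Finset (Fin (N + 1))).filter fun x => x.val < n).image fun x => (a, x + a) := by
        ext ⟨x, y⟩
        simp only [mem_filter, mem_univ, true_and, mem_image, Prod.mk.injEq]
        constructor
        · rintro ⟨h1, rfl⟩
          exact ⟨y - x, h1, rfl, sub_add_cancel _ _⟩
        · rintro ⟨z, hz, rfl, rfl⟩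
          rw [add_sub_cancel_right]
          exact ⟨hz, rfl⟩
      rw [h1, card_image_of_injective, hB_card h]
      intro x y hxy
      simpa using hxy
    · have h1 : ((univ.filter fun p : Fin (N + 1) × Fin (N + 1) => (p.2 - p.1).val < n).filter
          fun p => p.2 = b) =
          ((univ : Finset (Fin (N + 1))).filter fun x => x.val < n).image fun x => (b - x, b) := by
        ext ⟨x, y⟩
        simp only [mem_filter, mem_univ, true_and, mem_image, Prod.mk.injEq]
        constructor
        · rintro ⟨h1, rfl⟩
          exact ⟨y - x, h1, sub_sub_cancel _ _, rfl⟩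
        · rintro ⟨z, hz, rfl, rfl⟩
          rw [sub_sub_cancel]
          exact ⟨hz, rfl⟩
      rw [h1, card_image_of_injective, hB_card h]
      intro x y hxy
      simpa using hxy

end Pool.Agent.Lib.MP_c5b475_co.AA
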