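import Pool.Agent.Lib.MP_c5b475_co.AA.CNT

set_option autoImplicit false

/-!
# PFC (35 min): almost all graphs have few short cycles

`∑_{E} |cyc E n| ≤ ∑_{w ≤ n} ∑_{|W| = w} ∑_{F ⊆ pw W, |F| = w} #{E ⊇ F} ≤ C #BReg` by `cnt` with
`k = 0`, `C = ∑_{w ≤ n} 2^w 2^(w^2) (2n)^w` (exchange the sums; `W ∈ cyc E n` has at least `|W|`
edges, so it contains some `F`).  Markov: `K #{E : K < |cyc E n|} ≤ ∑_E |cyc E n|`; take `K ≥ C / ε`.
-/

namespace Pool.Agent.Lib.MP_c5b475_co.AA

open Finset

private theorem pfc_one {N n : ℕ} (E : Finset (Fin N × Fin N)) :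
    (cyc E n).card ≤ ∑ w ∈ range (n + 1), ∑ W ∈ powersetCard w (univ : Finset (Fin N ⊕ Fin N)),
      ∑ F ∈ powersetCard w (pw W), if F ⊆ E then 1 else 0 := by
  classical
  have h1 : cyc E n ⊆ (range (n + 1)).biUnion fun w =>
      (powersetCard w (univ : Finset (Fin N ⊕ Fin N))).filter fun W =>
        ∃ F ∈ powersetCard w (pw W), F ⊆ E := by
    intro W hW
    simp only [cyc, mem_filter, mem_univ, true_and] at hW
    obtain ⟨-, hW1, hW2⟩ := hW
    rw [eW_eq] at hW2
    obtain ⟨F, hF, hFc⟩ := exists_subset_card_eq hW2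
    simp only [mem_biUnion, mem_filter]
    refine ⟨W.card, by rw [mem_range]; omega, by simp [mem_powersetCard], F, ?_, ?_⟩
    · rw [mem_powersetCard]
      exact ⟨hF.trans inter_subset_right, hFc⟩
    · exact hF.trans inter_subset_left
  refine (card_le_card h1).trans (card_biUnion_le.trans ?_)
  apply sum_le_sum
  intro w _
  rw [card_filter]
  apply sum_le_sum
  intro W _
  split_ifs with h
  · obtain ⟨F, hF, hFE⟩ := h
    calc 1 = (if F ⊆ E then 1 else 0) := by rw [if_pos hFE]
      _ ≤ _ := single_le_sum (f := fun F => if F ⊆ E then 1 else 0) (fun _ _ => Nat.zero_le _) hF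
  · exact Nat.zero_le _

theorem p_fc (n : ℕ) (hn : 1 ≤ n) (ε : ℝ) (hε : 0 < ε) : ∃ K N0 : ℕ, ∀ N, N0 ≤ N →
    (((BReg N n).filter fun E => K < (cyc E n).card).card : ℝ) ≤ ε * (BReg N n).card := by
  classical
  choose f hf using fun w => cnt n w 0 hn
  let C : ℕ := ∑ w ∈ range (n + 1), 2 ^ w * 2 ^ (w ^ 2) * (2 * n) ^ w
  obtain ⟨K, hK⟩ := exists_nat_ge ((C : ℝ) / ε)
  refine ⟨K + 1, (range (n + 1)).sup f, fun N hN => ?_⟩
  have h2 : ∀ w ∈ range (n + 1), f w ≤ N := fun w hw => (le_sup hw).trans hN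
  have h3 : ∑ E ∈ BReg N n, (cyc E n).card ≤ C * (BReg N n).card := by
    calc ∑ E ∈ BReg N n, (cyc E n).card
        ≤ ∑ E ∈ BReg N n, ∑ w ∈ range (n + 1),
          ∑ W ∈ powersetCard w (univ : Finset (Fin N ⊕ Fin N)),
            ∑ F ∈ powersetCard w (pw W), (if F ⊆ E then 1 else 0) :=
          sum_le_sum fun E _ => pfc_one E
      _ = ∑ w ∈ range (n + 1), ∑ W ∈ powersetCard w (univ : Finset (Fin N ⊕ Fin N)),
            ∑ F ∈ powersetCard w (pw W), ((BReg N n).filter fun E => F ⊆ E).card := by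
          rw [sum_comm]
          refine sum_congr rfl fun w _ => ?_
          rw [sum_comm]
          refine sum_congr rfl fun W _ => ?_
          rw [sum_comm]
          refine sum_congr rfl fun F _ => ?_
          rw [card_filter]
      _ ≤ ∑ w ∈ range (n + 1), 2 ^ w * 2 ^ (w ^ 2) * (2 * n) ^ w * (BReg N n).card := by
          apply sum_le_sum
          intro w hw
          have := hf w N (h2 w hw)
          rw [pow_zero, mul_one] at this
          exact this
      _ = C * (BReg N n).card := by rw [← sum_mul]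
  have h4 : (K + 1) * ((BReg N n).filter fun E => K + 1 < (cyc E n).card).card ≤
      C * (BReg N n).card := by
    refine le_trans ?_ h3
    calc (K + 1) * ((BReg N n).filter fun E => K + 1 < (cyc E n).card).card
        = ((BReg N n).filter fun E => K + 1 < (cyc E n).card).card • (K + 1) := by
          rw [smul_eq_mul, mul_comm]
      _ ≤ ∑ E ∈ (BReg N n).filter fun E => K + 1 < (cyc E n).card, (cyc E n).card := by
          apply card_nsmul_le_sum
          intro E hE
          rw [mem_filter] at hE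
          exact hE.2.le
      _ ≤ _ := sum_le_sum_of_subset (filter_subset _ _)
  have h5 : ((K : ℝ) + 1) * ((BReg N n).filter fun E => K + 1 < (cyc E n).card).card ≤
      C * (BReg N n).card := by exact_mod_cast h4
  have h7 : (C : ℝ) ≤ ε * (K + 1) := by
    rw [div_le_iff₀ hε] at hK
    nlinarith
  have h8 : (0 : ℝ) < (K : ℝ) + 1 := by positivity
  have h9 : (0 : ℝ) ≤ (BReg N n).card := by positivity
  have h10 : ((K : ℝ) + 1) * ((BReg N n).filter fun E => K + 1 < (cyc E n).card).card ≤
      ((K : ℝ) + 1) * (ε * (BReg N n).card) := by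
    calc _ ≤ (C : ℝ) * (BReg N n).card := h5
      _ ≤ ε * (K + 1) * (BReg N n).card := mul_le_mul_of_nonneg_right h7 h9
      _ = _ := by ring
  exact le_of_mul_le_mul_left h10 h8

end Pool.Agent.Lib.MP_c5b475_co.AA
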