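import Pool.Agent.Lib.MP_c5b475_co.AA.PLS
import Pool.Agent.Lib.MP_c5b475_co.AA.PFC
import Pool.Agent.Lib.MP_c5b475_co.AA.D3
import Pool.Agent.Lib.MP_c5b475_co.AA.D4
import Pool.Agent.Lib.MP_c5b475_co.AA.HA
import Pool.Agent.Lib.MP_c5b475_co.AA.HB
import Pool.Agent.Lib.MP_c5b475_co.AA.HC

set_option autoImplicit false

namespace Pool.Agent.Lib.MP_c5b475_co.AA

open Finset Filter Topology

/-- every tree with `n` edges decomposes `G` -/
def Good (n N : ℕ) (G : SimpleGraph (Fin N ⊕ Fin N)) : Prop :=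
  ∀ T : SimpleGraph (Fin (n + 1)), T.IsTree → Decomposes T G

open scoped Classical in
/-- the number of exceptions is small -/
theorem few_bad (n : ℕ) (hn : 4 ≤ n) (ε : ℝ) (hε : 0 < ε) : ∃ N0, ∀ N, N0 ≤ N →
    (((BReg N n).filter fun E => ¬ Good n N (gr E)).card : ℝ) ≤ ε * (BReg N n).card := by
  obtain ⟨K, N1, hK⟩ := p_fc n (by omega) (ε / 4) (by positivity)
  obtain ⟨N2, hLS⟩ := p_ls n ((n + 1) * (2 * K + 1) + 2 * n + 1) (by omega) (ε / 4) (by positivity)
  obtain ⟨N3, hE1⟩ := p_ex n (2 * K) (by omega) (ε / 4) (by positivity)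
  obtain ⟨N4, hE2⟩ := p_ex_tr n (2 * K) (by omega) (ε / 4) (by positivity)
  refine ⟨max (max N1 N2) (max N3 N4), fun N hN => ?_⟩
  have hN1 : N1 ≤ N := le_trans (le_trans (le_max_left _ _) (le_max_left _ _)) hN
  have hN2 : N2 ≤ N := le_trans (le_trans (le_max_right _ _) (le_max_left _ _)) hN
  have hN3 : N3 ≤ N := le_trans (le_trans (le_max_left _ _) (le_max_right _ _)) hN
  have hN4 : N4 ≤ N := le_trans (le_trans (le_max_right _ _) (le_max_right _ _)) hN
  have key : ((BReg N n).filter fun E => ¬ Good n N (gr E)) ⊆ ((BReg N n).filter fun E => K < (cyc E n).card) ∪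
        (((BReg N n).filter fun E => ¬ LS E ((n + 1) * (2 * K + 1) + 2 * n + 1)) ∪
        (((BReg N n).filter fun E => ¬ Expd E (2 * K + 1) (2 * K + 1)) ∪
        ((BReg N n).filter fun E => ¬ Expd (tr E) (2 * K + 1) (2 * K + 1)))) := by
    intro E hE
    rw [mem_filter] at hE
    obtain ⟨hE, hbad⟩ := hE
    simp only [mem_union, mem_filter, hE, true_and]
    by_contra hcon
    push Not at hcon
    obtain ⟨h1, h2, h3, h4⟩ := hcon
    apply hbad
    intro T hT
    have h3' : Expd E (2 * K) (2 * K + 1) := fun S hS hS' => by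
      have := h3 S hS hS'
      omega
    have h4' : Expd (tr E) (2 * K) (2 * K + 1) := fun S hS hS' => by
      have := h4 S hS hS'
      omega
    obtain ⟨σ, hσ1, hσ2⟩ := exists_perm hn hE h2 (by omega) (by omega) h1 h3' h4'
    exact walk_decomposes hn hE h2 (by omega) σ hσ1 hσ2 T hT
  have h5 : (((BReg N n).filter fun E => ¬ Good n N (gr E)).card : ℝ) ≤
        (((BReg N n).filter fun E => K < (cyc E n).card).card : ℝ) +
        ((((BReg N n).filter fun E => ¬ LS E ((n + 1) * (2 * K + 1) + 2 * n + 1)).card : ℝ) +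
        ((((BReg N n).filter fun E => ¬ Expd E (2 * K + 1) (2 * K + 1)).card : ℝ) +
        (((BReg N n).filter fun E => ¬ Expd (tr E) (2 * K + 1) (2 * K + 1)).card : ℝ))) := by
    have h6 := card_le_card key
    have h7 := card_union_le ((BReg N n).filter fun E => K < (cyc E n).card)
      (((BReg N n).filter fun E => ¬ LS E ((n + 1) * (2 * K + 1) + 2 * n + 1)) ∪
        (((BReg N n).filter fun E => ¬ Expd E (2 * K + 1) (2 * K + 1)) ∪
        ((BReg N n).filter fun E => ¬ Expd (tr E) (2 * K + 1) (2 * K + 1))))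
    have h8 := card_union_le ((BReg N n).filter fun E => ¬ LS E ((n + 1) * (2 * K + 1) + 2 * n + 1))
      (((BReg N n).filter fun E => ¬ Expd E (2 * K + 1) (2 * K + 1)) ∪
        ((BReg N n).filter fun E => ¬ Expd (tr E) (2 * K + 1) (2 * K + 1)))
    have h9 := card_union_le ((BReg N n).filter fun E => ¬ Expd E (2 * K + 1) (2 * K + 1))
        ((BReg N n).filter fun E => ¬ Expd (tr E) (2 * K + 1) (2 * K + 1))
    have h10 := h6.trans (h7.trans (Nat.add_le_add_left (h8.trans (Nat.add_le_add_left h9 _)) _))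
    exact_mod_cast h10
  have e1 := hK N hN1
  have e2 := hLS N hN2
  have e3 := hE1 N hN3
  have e4 := hE2 N hN4
  linarith

/-- **Almost all hosts.** -/
theorem almost_all (n : ℕ) : Tendsto (fun N : ℕ =>
    (Nat.card {G : SimpleGraph (Fin N ⊕ Fin N) // IsHost N n G ∧
      ∀ T : SimpleGraph (Fin (n + 1)), T.IsTree → Decomposes T G} : ℝ) /
    Nat.card {G : SimpleGraph (Fin N ⊕ Fin N) // IsHost N n G}) atTop (𝓝 1) := by
  classical
  have htot : ∀ N, Nat.card {G : SimpleGraph (Fin N ⊕ Fin N) // IsHost N n G} =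
      (BReg N n).card := by
    intro N
    have h := card_host N n (fun _ => True)
    simp only [and_true, filter_true] at h
    exact h
  have hgood : ∀ N, Nat.card {G : SimpleGraph (Fin N ⊕ Fin N) // IsHost N n G ∧
      ∀ T : SimpleGraph (Fin (n + 1)), T.IsTree → Decomposes T G} =
      ((BReg N n).filter fun E => Good n N (gr E)).card := fun N => card_host N n (Good n N)
  simp only [hgood, htot]
  rw [Metric.tendsto_atTop]
  intro ε hε
  have hbad : ∃ N0, ∀ N, N0 ≤ N →
      (((BReg N n).filter fun E => ¬ Good n N (gr E)).card : ℝ) ≤ (ε / 2) * (BReg N n).card := by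
    by_cases hn : 4 ≤ n
    · exact few_bad n hn (ε / 2) (by positivity)
    · refine ⟨0, fun N _ => ?_⟩
      have : ((BReg N n).filter fun E => ¬ Good n N (gr E)) = ∅ := by
        rw [filter_eq_empty_iff]
        intro E hE hcon
        exact hcon fun T hT => small_host (by omega) hE T hT
      rw [this]
      simp only [card_empty, Nat.cast_zero]
      positivity
  obtain ⟨N0, hN0⟩ := hbad
  refine ⟨max N0 n, fun N hN => ?_⟩
  have h1 := hN0 N (le_trans (le_max_left _ _) hN)
  have hpos : (0 : ℝ) < (BReg N n).card := by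
    exact_mod_cast (breg_nonempty N n (le_trans (le_max_right _ _) hN)).card_pos
  have h2 := card_filter_add_card_filter_not (s := BReg N n)
    (fun E => Good n N (gr E))
  have h3 : (((BReg N n).filter fun E => Good n N (gr E)).card : ℝ) = (BReg N n).card -
      (((BReg N n).filter fun E => ¬ Good n N (gr E)).card : ℝ) := by
    rw [← h2]
    push_cast
    ring
  rw [h3, Real.dist_eq, sub_div, div_self hpos.ne', sub_sub_cancel_left, abs_neg,
    abs_of_nonneg (by positivity), div_lt_iff₀ hpos]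
  nlinarith

end Pool.Agent.Lib.MP_c5b475_co.AA
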