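import Pool.Agent.Lib.MP_c5b475_co.AA.SwB

set_option autoImplicit false

/-!
# PF1 (45 min): one switching step for a prescribed set of edges

Let `e = (a, b) ∈ F`.  For `E ⊇ F` regular let `X E` be the set of edges `p = (a', b') ∈ E`, `p ∉ F`,
`(a, b') ∉ E`, `(a', b) ∉ E`; by `card_edges`, `card_near`: `n N - 2 n ^ 2 - |F| ≤ |X E|`.  The map
`(E, (a', b')) ↦ (swc E a b a' b', (a', b'))` is injective (`swc_swc`), its image lies in the pairs
`(E', (a', b'))` with `E' ⊇ F.erase e` regular, `(a, b') ∈ E'`, `(a', b) ∈ E'`: for given `E'` there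
are `n` choices of `b'` and `n` of `a'`.  Compare the cardinalities of the two sigma types
(`Finset.card_le_card_of_injOn`, `Finset.card_sigma`).
-/

namespace Pool.Agent.Lib.MP_c5b475_co.AA

open Finset

variable {N : ℕ}

theorem pf_step (n : ℕ) (F : Finset (Fin N × Fin N)) {e : Fin N × Fin N} (he : e ∈ F) :
    ((BReg N n).filter fun E => F ⊆ E).card * (n * N - (2 * n ^ 2 + F.card)) ≤
      n ^ 2 * ((BReg N n).filter fun E => F.erase e ⊆ E).card := by
  classical
  obtain ⟨a, b⟩ := e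
  let P : Finset (Σ _ : Finset (Fin N × Fin N), Fin N × Fin N) :=
    ((BReg N n).filter fun E => F ⊆ E).sigma fun E =>
      E.filter fun p => p ∉ F ∧ (a, p.2) ∉ E ∧ (p.1, b) ∉ E
  let R : Finset (Σ _ : Finset (Fin N × Fin N), (Fin N × Fin N) × (Fin N × Fin N)) :=
    ((BReg N n).filter fun E => F.erase (a, b) ⊆ E).sigma fun E =>
      (E.filter fun p => p.1 = a) ×ˢ (E.filter fun p => p.2 = b)
  have hP : ((BReg N n).filter fun E => F ⊆ E).card * (n * N - (2 * n ^ 2 + F.card)) ≤ P.card := by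
    rw [card_sigma, ← smul_eq_mul]
    apply card_nsmul_le_sum
    intro E hE
    rw [mem_filter] at hE
    have h1 := card_edges hE.1
    have h2 := card_near hE.1 a b
    have h3 : E ⊆ (E.filter fun p => p ∉ F ∧ (a, p.2) ∉ E ∧ (p.1, b) ∉ E) ∪
        ((E.filter fun p => (a, p.2) ∈ E ∨ (p.1, b) ∈ E) ∪ F) := by
      intro p hp
      simp only [mem_union, mem_filter]
      tauto
    have h4 := (card_le_card h3).trans (card_union_le _ _)
    have h5 := card_union_le (E.filter fun p => (a, p.2) ∈ E ∨ (p.1, b) ∈ E) F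
    omega
  have hR : R.card ≤ n ^ 2 * ((BReg N n).filter fun E => F.erase (a, b) ⊆ E).card := by
    rw [card_sigma, mul_comm, ← smul_eq_mul]
    apply sum_le_card_nsmul
    intro E hE
    rw [mem_filter, mem_BReg] at hE
    rw [card_product, hE.1.1 a, hE.1.2 b, sq]
  refine hP.trans (le_trans ?_ hR)
  apply card_le_card_of_injOn (fun x =>
    (⟨swc x.1 a b x.2.1 x.2.2, (a, x.2.2), (x.2.1, b)⟩ :
      Σ _ : Finset (Fin N × Fin N), (Fin N × Fin N) × (Fin N × Fin N)))
  · rintro ⟨E, ⟨a', b'⟩⟩ hx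
    simp only [P, mem_coe, mem_sigma, mem_filter] at hx
    obtain ⟨⟨hE, hF⟩, hab', hF', h3, h4⟩ := hx
    have hab := hF he
    have hE' := swc_mem hE hab hab' h3 h4
    simp only [R, mem_coe, mem_sigma, mem_filter, mem_product]
    refine ⟨⟨hE', ?_⟩, ⟨?_, trivial⟩, ?_, trivial⟩
    · intro p hp
      rw [mem_erase] at hp
      rw [mem_swc]
      refine Or.inr (Or.inr ⟨?_, hp.1, hF hp.2⟩)
      rintro rfl
      exact hF' hp.2
    · rw [mem_swc]; exact Or.inl rfl
    · rw [mem_swc]; exact Or.inr (Or.inl rfl)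
  · rintro ⟨E, ⟨a', b'⟩⟩ hx ⟨E', ⟨c', d'⟩⟩ hy hxy
    simp only [P, mem_coe, mem_sigma, mem_filter] at hx hy
    obtain ⟨⟨hE, hF⟩, hab', hF', h3, h4⟩ := hx
    obtain ⟨⟨hE2, hF2⟩, hcd', hF2', h3', h4'⟩ := hy
    simp only [Sigma.mk.injEq, heq_eq_eq, Prod.mk.injEq, true_and, and_true] at hxy
    obtain ⟨e1, rfl, rfl⟩ := hxy
    have e2 := swc_swc (hF he) hab' h3 h4
    have e3 := swc_swc (hF2 he) hcd' h3' h4'
    rw [e1, e3] at e2
    subst e2
    rfl

end Pool.Agent.Lib.MP_c5b475_co.AA
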