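import Pool.Agent.Lib.MP_c5b475_co.AA.CNT

set_option autoImplicit false

/-!
# PLS (35 min): almost all graphs are locally sparse

If `LS E L` fails there is `W`, `w = |W| ≤ L`, with at least `w + 1` edges inside, i.e. some
`F ⊆ pw W`, `|F| = w + 1`, `F ⊆ E` (`Finset.exists_subset_card_eq`).  Hence
`#{¬ LS} ≤ ∑_{w ≤ L} ∑_W ∑_F #{E ⊇ F}` (`Finset.card_biUnion_le`), and by `cnt` with `k = 1` this
times `N` is at most `C #BReg`, `C = ∑_{w ≤ L} 2^w 2^(w^2) (2n)^(w+1)`.  For `N ≥ C / ε` done.
-/

namespace Pool.Agent.Lib.MP_c5b475_co.AA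

open Finset

open scoped Classical in
theorem p_ls (n L : ℕ) (hn : 1 ≤ n) (ε : ℝ) (hε : 0 < ε) : ∃ N0, ∀ N, N0 ≤ N →
    (((BReg N n).filter fun E => ¬ LS E L).card : ℝ) ≤ ε * (BReg N n).card := by
  choose f hf using fun w => cnt n w 1 hn
  let C : ℕ := ∑ w ∈ range (L + 1), 2 ^ w * 2 ^ (w ^ 2) * (2 * n) ^ (w + 1)
  obtain ⟨N1, hN1⟩ := exists_nat_ge ((C : ℝ) / ε)
  refine ⟨max ((range (L + 1)).sup f) (max N1 1), fun N hN => ?_⟩
  have h0 : 1 ≤ N := (le_max_right _ _).trans ((le_max_right _ _).trans hN)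
  have h1 : N1 ≤ N := (le_max_left _ _).trans ((le_max_right _ _).trans hN)
  have h2 : ∀ w ∈ range (L + 1), f w ≤ N := fun w hw =>
    (le_sup hw).trans ((le_max_left _ _).trans hN)
  have h3 : ((BReg N n).filter fun E => ¬ LS E L) ⊆ (range (L + 1)).biUnion fun w =>
      (powersetCard w (univ : Finset (Fin N ⊕ Fin N))).biUnion fun W =>
        (powersetCard (w + 1) (pw W)).biUnion fun F => (BReg N n).filter fun E => F ⊆ E := by
    intro E hE
    rw [mem_filter] at hE
    obtain ⟨hE, hLS⟩ := hE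
    unfold LS at hLS
    push Not at hLS
    obtain ⟨W, hW, hlt⟩ := hLS
    rw [eW_eq] at hlt
    obtain ⟨F, hF, hFc⟩ := exists_subset_card_eq (show W.card + 1 ≤ (E ∩ pw W).card from hlt)
    simp only [mem_biUnion, mem_filter]
    refine ⟨W.card, by rw [mem_range]; omega, W, by simp [mem_powersetCard], F, ?_, hE, ?_⟩
    · rw [mem_powersetCard]
      exact ⟨hF.trans inter_subset_right, hFc⟩
    · exact hF.trans inter_subset_left
  have h4 : ((BReg N n).filter fun E => ¬ LS E L).card * N ≤ C * (BReg N n).card := by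
    calc ((BReg N n).filter fun E => ¬ LS E L).card * N
        ≤ (∑ w ∈ range (L + 1), ∑ W ∈ powersetCard w (univ : Finset (Fin N ⊕ Fin N)),
          ∑ F ∈ powersetCard (w + 1) (pw W), ((BReg N n).filter fun E => F ⊆ E).card) * N := by
          apply Nat.mul_le_mul_right
          refine (card_le_card h3).trans ?_
          refine card_biUnion_le.trans ?_
          apply sum_le_sum
          intro w _
          refine card_biUnion_le.trans ?_
          apply sum_le_sum
          intro W _
          exact card_biUnion_le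
      _ = ∑ w ∈ range (L + 1), (∑ W ∈ powersetCard w (univ : Finset (Fin N ⊕ Fin N)),
          ∑ F ∈ powersetCard (w + 1) (pw W), ((BReg N n).filter fun E => F ⊆ E).card) * N := by
          rw [sum_mul]
      _ ≤ ∑ w ∈ range (L + 1), 2 ^ w * 2 ^ (w ^ 2) * (2 * n) ^ (w + 1) * (BReg N n).card := by
          apply sum_le_sum
          intro w hw
          have := hf w N (h2 w hw)
          rw [pow_one] at this
          exact this
      _ = C * (BReg N n).card := by rw [← sum_mul]
  have h5 : (((BReg N n).filter fun E => ¬ LS E L).card : ℝ) * N ≤ C * (BReg N n).card := by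
    exact_mod_cast h4
  have h6 : (0 : ℝ) < N := by exact_mod_cast h0
  have h7 : (C : ℝ) ≤ ε * N := by
    have h8 : (C : ℝ) / ε ≤ N := hN1.trans (by exact_mod_cast h1)
    rw [div_le_iff₀ hε] at h8
    linarith
  have h9 : (0 : ℝ) ≤ (BReg N n).card := by positivity
  have h10 : (((BReg N n).filter fun E => ¬ LS E L).card : ℝ) * N ≤
      ε * (BReg N n).card * N := by
    calc _ ≤ (C : ℝ) * (BReg N n).card := h5
      _ ≤ ε * N * (BReg N n).card := mul_le_mul_of_nonneg_right h7 h9
      _ = _ := by ring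
  exact le_of_mul_le_mul_right h10 h6

end Pool.Agent.Lib.MP_c5b475_co.AA
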