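import Pool.Agent.Lib.MP_c5b475_co.AA.Defs

set_option autoImplicit false

/-!
# SwA (25 min): switchings

`swc E a b a' b'` replaces the edges `ab`, `a'b'` by `ab'`, `a'b`.  Everything is about membership
(`mem_swc`).  Note `a ≠ a'` (as `(a', b') ∈ E`, `(a, b') ∉ E`) and `b ≠ b'`.  For the degrees: in the row
`a` the element `(a, b)` is replaced by `(a, b')`, in the row `a'` `(a', b')` by `(a', b)`, the other rows
are unchanged; same for columns.
-/

namespace Pool.Agent.Lib.MP_c5b475_co.AA

open Finset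

variable {N : ℕ}

theorem mem_BReg {n : ℕ} {E : Finset (Fin N × Fin N)} : E ∈ BReg N n ↔
    (∀ a, (E.filter fun p => p.1 = a).card = n) ∧ ∀ b, (E.filter fun p => p.2 = b).card = n := by
  simp [BReg]

theorem mem_swc {E : Finset (Fin N × Fin N)} {a b a' b' : Fin N} {p : Fin N × Fin N} :
    p ∈ swc E a b a' b' ↔ p = (a, b') ∨ p = (a', b) ∨ (p ≠ (a', b') ∧ p ≠ (a, b) ∧ p ∈ E) := by
  simp [swc]

/-- Counting the pairs with a property before and after a switching. -/
theorem SwA_count {E : Finset (Fin N × Fin N)} {a b a' b' : Fin N}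
    (h1 : (a, b) ∈ E) (h2 : (a', b') ∈ E) (h3 : (a, b') ∉ E) (h4 : (a', b) ∉ E)
    (P : Fin N × Fin N → Prop) [DecidablePred P] :
    ((swc E a b a' b').filter P).card + ((if P (a, b) then 1 else 0) + (if P (a', b') then 1 else 0)) =
      (E.filter P).card + ((if P (a, b') then 1 else 0) + (if P (a', b) then 1 else 0)) := by
  have haa : a ≠ a' := fun h => h3 (h ▸ h2)
  rw [card_filter, card_filter, swc, sum_insert, sum_insert]
  · have e1 := add_sum_erase (E.erase (a, b)) (fun p => if P p then 1 else 0)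
      (show (a', b') ∈ E.erase (a, b) by
        rw [mem_erase]; exact ⟨fun h => haa (by rw [Prod.mk.injEq] at h; exact h.1.symm), h2⟩)
    have e2 := add_sum_erase E (fun p => if P p then 1 else 0) h1
    beta_reduce at e1 e2
    omega
  · simp [h4]
  · rw [mem_insert, not_or]
    constructor
    · intro h
      rw [Prod.mk.injEq] at h
      exact haa h.1
    · simp [h3]

theorem swc_mem {n : ℕ} {E : Finset (Fin N × Fin N)} (hE : E ∈ BReg N n) {a b a' b' : Fin N}
    (h1 : (a, b) ∈ E) (h2 : (a', b') ∈ E) (h3 : (a, b') ∉ E) (h4 : (a', b) ∉ E) :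
    swc E a b a' b' ∈ BReg N n := by
  rw [mem_BReg] at hE ⊢
  constructor
  · intro x
    have := SwA_count h1 h2 h3 h4 (fun p => p.1 = x)
    have h5 := hE.1 x
    simp only at this
    omega
  · intro x
    have := SwA_count h1 h2 h3 h4 (fun p => p.2 = x)
    have h5 := hE.2 x
    simp only at this
    omega

/-- switching back -/
theorem swc_swc {E : Finset (Fin N × Fin N)} {a b a' b' : Fin N}
    (h1 : (a, b) ∈ E) (h2 : (a', b') ∈ E) (h3 : (a, b') ∉ E) (h4 : (a', b) ∉ E) :
    swc (swc E a b a' b') a b' a' b = E := by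
  ext p
  rw [mem_swc, mem_swc]
  by_cases e1 : p = (a, b)
  · subst e1; simp [h1]
  by_cases e2 : p = (a', b')
  · subst e2; simp [h2]
  by_cases e3 : p = (a, b')
  · subst e3
    simp only [h3, iff_false]
    rintro (h | h | h)
    · exact e1 h
    · exact e2 h
    · exact h.2.1 rfl
  by_cases e4 : p = (a', b)
  · subst e4
    simp only [h4, iff_false]
    rintro (h | h | h)
    · exact e1 h
    · exact e2 h
    · exact h.1 rfl
  simp [e1, e2, e3, e4]

end Pool.Agent.Lib.MP_c5b475_co.AA
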