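import Pool.Agent.Lib.MP_c5b475_co.AA.SwA

set_option autoImplicit false

/-!
# SwB (25 min): counting edges

`card_row`: fibres over the first coordinate (`Finset.card_eq_sum_card_fiberwise`).
`card_near`: the edges `p` with `(a, p.2) ∈ E` have `p.2` in the `n` neighbours of `a`, each of them has
`n` edges; same for `(p.1, b) ∈ E`.
-/

namespace Pool.Agent.Lib.MP_c5b475_co.AA

open Finset

variable {N : ℕ}

theorem card_row {n : ℕ} {E : Finset (Fin N × Fin N)} (hE : E ∈ BReg N n) (S : Finset (Fin N)) :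
    (E.filter fun p => p.1 ∈ S).card = n * S.card := by
  have h := (mem_BReg.1 hE).1
  rw [Finset.card_eq_sum_card_fiberwise (f := fun p : Fin N × Fin N => p.1) (t := S)
    (fun p hp => by
      have := Finset.mem_coe.1 hp
      exact Finset.mem_coe.2 (Finset.mem_filter.1 this).2)]
  rw [Finset.sum_congr rfl (g := fun _ => n), Finset.sum_const, smul_eq_mul, mul_comm]
  intro x hx
  rw [← h x]
  congr 1
  ext p
  simp only [Finset.mem_filter]
  constructor
  · rintro ⟨⟨h1, _⟩, h2⟩
    exact ⟨h1, h2⟩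
  · rintro ⟨h1, h2⟩
    exact ⟨⟨h1, by rw [h2]; exact hx⟩, h2⟩

theorem card_col {n : ℕ} {E : Finset (Fin N × Fin N)} (hE : E ∈ BReg N n) (S : Finset (Fin N)) :
    (E.filter fun p => p.2 ∈ S).card = n * S.card := by
  have h := (mem_BReg.1 hE).2
  rw [Finset.card_eq_sum_card_fiberwise (f := fun p : Fin N × Fin N => p.2) (t := S)
    (fun p hp => by
      have := Finset.mem_coe.1 hp
      exact Finset.mem_coe.2 (Finset.mem_filter.1 this).2)]
  rw [Finset.sum_congr rfl (g := fun _ => n), Finset.sum_const, smul_eq_mul, mul_comm]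
  intro x hx
  rw [← h x]
  congr 1
  ext p
  simp only [Finset.mem_filter]
  constructor
  · rintro ⟨⟨h1, _⟩, h2⟩
    exact ⟨h1, h2⟩
  · rintro ⟨h1, h2⟩
    exact ⟨⟨h1, by rw [h2]; exact hx⟩, h2⟩

/-- number of edges in a regular graph -/
theorem card_edges {n : ℕ} {E : Finset (Fin N × Fin N)} (hE : E ∈ BReg N n) : E.card = n * N := by
  have h := card_row hE Finset.univ
  rw [Finset.card_univ, Fintype.card_fin] at h
  rw [← h]
  congr 1
  ext p
  simp

/-- For fixed `a` and `b` at most `2 n ^ 2` edges `(a', b')` have `(a, b') ∈ E` or `(a', b) ∈ E`. -/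
theorem card_near {n : ℕ} {E : Finset (Fin N × Fin N)} (hE : E ∈ BReg N n) (a b : Fin N) :
    (E.filter fun p => (a, p.2) ∈ E ∨ (p.1, b) ∈ E).card ≤ 2 * n ^ 2 := by
  set S : Finset (Fin N) := (E.filter fun p => p.1 = a).image Prod.snd with hS
  set T : Finset (Fin N) := (E.filter fun p => p.2 = b).image Prod.fst with hT
  have hSc : S.card ≤ n := by
    rw [← (mem_BReg.1 hE).1 a]
    exact Finset.card_image_le
  have hTc : T.card ≤ n := by
    rw [← (mem_BReg.1 hE).2 b]
    exact Finset.card_image_le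
  have hsub : (E.filter fun p => (a, p.2) ∈ E ∨ (p.1, b) ∈ E) ⊆
      (E.filter fun p => p.2 ∈ S) ∪ (E.filter fun p => p.1 ∈ T) := by
    intro p hp
    rw [Finset.mem_filter] at hp
    rw [Finset.mem_union, Finset.mem_filter, Finset.mem_filter]
    rcases hp with ⟨hp, h | h⟩
    · left
      refine ⟨hp, ?_⟩
      rw [hS, Finset.mem_image]
      exact ⟨(a, p.2), Finset.mem_filter.2 ⟨h, rfl⟩, rfl⟩
    · right
      refine ⟨hp, ?_⟩
      rw [hT, Finset.mem_image]
      exact ⟨(p.1, b), Finset.mem_filter.2 ⟨h, rfl⟩, rfl⟩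
  calc (E.filter fun p => (a, p.2) ∈ E ∨ (p.1, b) ∈ E).card
      ≤ ((E.filter fun p => p.2 ∈ S) ∪ (E.filter fun p => p.1 ∈ T)).card :=
        Finset.card_le_card hsub
    _ ≤ (E.filter fun p => p.2 ∈ S).card + (E.filter fun p => p.1 ∈ T).card :=
        Finset.card_union_le _ _
    _ = n * S.card + n * T.card := by rw [card_col hE, card_row hE]
    _ ≤ n * n + n * n := Nat.add_le_add (Nat.mul_le_mul_left _ hSc) (Nat.mul_le_mul_left _ hTc)
    _ = 2 * n ^ 2 := by ring

end Pool.Agent.Lib.MP_c5b475_co.AA
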